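import Pool.Agent.TPH.TrB

/-!
# Three classes of facets with collinear apexes: from the polytope to data in `E × ℝ`

The polytope is `{p | ⟪n_i, p⟫ ≤ b_i}`, `p₀` is an interior point, `d ≠ 0`.
-/

set_option autoImplicit false

namespace TCC

open TPH TPH.Tr
open scoped InnerProductSpace

/-- The four dimensional Euclidean space. -/
abbrev E4 := EuclideanSpace ℝ (Fin 4)

variable {n : ℕ}

/-- The polyhedron. -/
def Poly (u : Fin n → E4) (b : Fin n → ℝ) : Set E4 := {p | ∀ i, ⟪u i, p⟫_ℝ ≤ b i}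

/-- The facet. -/
def Facet (u : Fin n → E4) (b : Fin n → ℝ) (i : Fin n) : Set E4 :=
  {p | p ∈ Poly u b ∧ ⟪u i, p⟫_ℝ = b i}

/-- Bounded, and every inequality defines a facet. -/
structure IsPoly4 (u : Fin n → E4) (b : Fin n → ℝ) : Prop where
  bounded : Bornology.IsBounded (Poly u b)
  facet : ∀ i, ∃ p ∈ Poly u b, ∀ j, ⟪u j, p⟫_ℝ = b j ↔ j = i

/-- The data of the polytope. -/
structure PD (V : Finset (E × ℝ)) {ι : Type*} (G : Finset ι) (w : ι → E) (s : ι → ℝ) : Prop where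
  nn : ∀ g ∈ G, ∀ v ∈ V, val (w g) (s g) v ≤ 1
  inj : ∀ g ∈ G, ∀ g' ∈ G, w g = w g' → s g = s g' → g = g'
  span : ∀ g ∈ G, ∀ (w' : E) (s' q' : ℝ), (∀ v ∈ V, val (w g) (s g) v = 1 → val w' s' v = q') →
    w' = q' • w g ∧ s' = q' * s g
  exp : ∀ v ∈ V, ∃ (w' : E) (s' : ℝ), ∀ v' ∈ V, v' ≠ v → val w' s' v' < val w' s' v
  all : ∀ (w' : E) (s' : ℝ), (∀ v ∈ V, val w' s' v ≤ 1) →
    (∀ (w'' : E) (s'' : ℝ), (∀ v ∈ V, val w' s' v = 1 → val w'' s'' v = 0) → w'' = 0 ∧ s'' = 0) →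
    ∃ g ∈ G, w g = w' ∧ s g = s'
  pos : ∀ (w' : E) (s' : ℝ), (w' ≠ 0 ∨ s' ≠ 0) → ∃ v ∈ V, 0 < val w' s' v

/-- The extreme points. -/
theorem mem_extreme {u : Fin n → E4} {b : Fin n → ℝ} {p : E4} :
    p ∈ Set.extremePoints ℝ (Poly u b) ↔ p ∈ Poly u b ∧
      ∀ y : E4, (∀ i, ⟪u i, p⟫_ℝ = b i → ⟪u i, y⟫_ℝ = 0) → y = 0 := by
  constructor
  · intro hp
    refine ⟨hp.1, fun y hy => ?_⟩
    by_contra hne
    -- a small step in both directions
    have hδ : ∀ i : Fin n, ∃ δ : ℝ, 0 < δ ∧ ∀ t : ℝ, |t| ≤ δ → ⟪u i, p⟫_ℝ + t * ⟪u i, y⟫_ℝ ≤ b i := by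
      intro i
      rcases eq_or_lt_of_le (hp.1 i) with h | h
      · refine ⟨1, one_pos, fun t _ => ?_⟩
        rw [hy i h, mul_zero, add_zero, h]
      · refine ⟨(b i - ⟪u i, p⟫_ℝ) / (|⟪u i, y⟫_ℝ| + 1), by
          have := abs_nonneg ⟪u i, y⟫_ℝ
          have h2 : 0 < b i - ⟪u i, p⟫_ℝ := by linarith
          positivity, fun t ht => ?_⟩
        have h0 := abs_nonneg ⟪u i, y⟫_ℝ
        have h1 : t * ⟪u i, y⟫_ℝ ≤ |t| * |⟪u i, y⟫_ℝ| := by
          rw [← abs_mul]; exact le_abs_self _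
        have h2 : |t| * |⟪u i, y⟫_ℝ| ≤ |t| * (|⟪u i, y⟫_ℝ| + 1) := by
          have := abs_nonneg t
          nlinarith
        have h3 : |t| * (|⟪u i, y⟫_ℝ| + 1) ≤ b i - ⟪u i, p⟫_ℝ := by
          rw [le_div_iff₀ (by positivity)] at ht
          exact ht
        linarith
    choose δ hδ0 hδ1 using hδ
    obtain ⟨ε, hε0, hε⟩ : ∃ ε : ℝ, 0 < ε ∧ ∀ i, ε ≤ δ i := by
      rcases isEmpty_or_nonempty (Fin n) with hn | hn
      · exact ⟨1, one_pos, fun i => (hn.false i).elim⟩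
      · obtain ⟨i, hi⟩ := Finite.exists_min δ
        exact ⟨δ i, hδ0 i, hi⟩
    have hplus : ∀ t : ℝ, |t| ≤ ε → p + t • y ∈ Poly u b := by
      intro t ht i
      rw [inner_add_right, inner_smul_right]
      exact hδ1 i t (ht.trans (hε i))
    have h1 := hplus ε (by rw [abs_of_pos hε0])
    have h2 := hplus (-ε) (by rw [abs_neg, abs_of_pos hε0])
    have h3 : p ∈ openSegment ℝ (p + ε • y) (p + (-ε) • y) :=
      ⟨1 / 2, 1 / 2, by norm_num, by norm_num, by norm_num, by module⟩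
    have h4 := hp.2 h1 h2 h3
    have h5 : ε • y = 0 := by
      have : p + ε • y = p + 0 := by rw [h4, add_zero]
      exact add_left_cancel this
    rcases smul_eq_zero.1 h5 with h | h
    · exact hε0.ne' h
    · exact hne h
  · rintro ⟨hp, hy⟩
    refine ⟨hp, ?_⟩
    intro x₁ hx₁ x₂ hx₂ hseg
    obtain ⟨α, β, hα, hβ, hαβ, hx⟩ := hseg
    have h : x₁ - x₂ = 0 := by
      apply hy
      intro i hi
      have h1 := hx₁ i
      have h2 := hx₂ i
      rw [← hx, inner_add_right, inner_smul_right, inner_smul_right] at hi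
      have h3 : α * (b i - ⟪u i, x₁⟫_ℝ) + β * (b i - ⟪u i, x₂⟫_ℝ) = 0 := by
        have : (α + β) * b i = b i := by rw [hαβ, one_mul]
        linarith
      have h4 : 0 ≤ α * (b i - ⟪u i, x₁⟫_ℝ) := mul_nonneg hα.le (by linarith)
      have h5 : 0 ≤ β * (b i - ⟪u i, x₂⟫_ℝ) := mul_nonneg hβ.le (by linarith)
      have h6 : α * (b i - ⟪u i, x₁⟫_ℝ) = 0 := by linarith
      have h7 : β * (b i - ⟪u i, x₂⟫_ℝ) = 0 := by linarith
      rw [inner_sub_right]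
      rcases mul_eq_zero.1 h6 with h | h
      · exact absurd h hα.ne'
      · rcases mul_eq_zero.1 h7 with h' | h'
        · exact absurd h' hβ.ne'
        · linarith
    have h' : x₁ = x₂ := sub_eq_zero.1 h
    rw [← hx, ← h', ← add_smul, hαβ, one_smul]

/-- The coordinates of the functional `⟪·, y⟫`. -/
noncomputable def rep (Θ : E4 ≃ₗ[ℝ] (E × ℝ)) (y : E4) : E × ℝ :=
  (![⟪Θ.symm (![1, 0, 0], 0), y⟫_ℝ, ⟪Θ.symm (![0, 1, 0], 0), y⟫_ℝ,
    ⟪Θ.symm (![0, 0, 1], 0), y⟫_ℝ], ⟪Θ.symm (0, 1), y⟫_ℝ)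

theorem val_rep (Θ : E4 ≃ₗ[ℝ] (E × ℝ)) (y v : E4) :
    val (rep Θ y).1 (rep Θ y).2 (Θ v) = ⟪v, y⟫_ℝ := by
  obtain ⟨z, rfl⟩ := Θ.symm.surjective v
  rw [LinearEquiv.apply_symm_apply]
  obtain ⟨w, t⟩ := z
  have h2 : ((w, t) : E × ℝ) = w 0 • ((![1, 0, 0] : E), (0 : ℝ)) +
      w 1 • ((![0, 1, 0] : E), (0 : ℝ)) + w 2 • ((![0, 0, 1] : E), (0 : ℝ)) +
      t • ((0 : E), (1 : ℝ)) := by
    ext i
    · fin_cases i <;> simp
    · simp
  have h1 : Θ.symm (w, t) = w 0 • Θ.symm (![1, 0, 0], 0) + w 1 • Θ.symm (![0, 1, 0], 0) +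
      w 2 • Θ.symm (![0, 0, 1], 0) + t • Θ.symm (0, 1) := by
    rw [h2]
    simp only [map_add, map_smul]
  rw [h1]
  simp only [inner_add_left, inner_smul_left, rep, val, ip, Matrix.cons_val_zero,
    Matrix.cons_val_one, Matrix.cons_val]
  simp
  ring

theorem rep_inj {Θ : E4 ≃ₗ[ℝ] (E × ℝ)} {y y' : E4} (h : rep Θ y = rep Θ y') : y = y' := by
  apply ext_inner_left ℝ
  intro v
  rw [← val_rep Θ y v, ← val_rep Θ y' v, h]

theorem rep_surj (Θ : E4 ≃ₗ[ℝ] (E × ℝ)) (w' : E) (s' : ℝ) : ∃ y, rep Θ y = (w', s') := by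
  let f : E4 →ₗ[ℝ] ℝ :=
    { toFun := fun v => val w' s' (Θ v)
      map_add' := by
        intro x y
        simp only [map_add, val, ip, Prod.fst_add, Prod.snd_add, Pi.add_apply]
        ring
      map_smul' := by
        intro k x
        simp only [map_smul, val, ip, Prod.smul_fst, Prod.smul_snd, Pi.smul_apply, smul_eq_mul,
          RingHom.id_apply]
        ring }
  obtain ⟨y, hy⟩ : ∃ y : E4, ∀ v, ⟪v, y⟫_ℝ = f v := by
    refine ⟨(InnerProductSpace.toDual ℝ E4).symm (LinearMap.toContinuousLinearMap f), fun v => ?_⟩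
    rw [real_inner_comm, InnerProductSpace.toDual_symm_apply]
    rfl
  refine ⟨y, ?_⟩
  have hf : ∀ z : E × ℝ, f (Θ.symm z) = val w' s' z := by
    intro z
    show val w' s' (Θ (Θ.symm z)) = _
    rw [LinearEquiv.apply_symm_apply]
  unfold rep
  rw [hy, hy, hy, hy, hf, hf, hf, hf]
  ext i
  · fin_cases i <;> simp [val, ip]
  · simp [val, ip]

theorem rep_sub_smul (Θ : E4 ≃ₗ[ℝ] (E × ℝ)) (y y' : E4) (k : ℝ) (h : y = k • y') :
    (rep Θ y).1 = k • (rep Θ y').1 ∧ (rep Θ y).2 = k * (rep Θ y').2 := by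
  subst h
  unfold rep
  constructor
  · funext i
    fin_cases i <;> simp [inner_smul_right]
  · simp [inner_smul_right]

/-- The dual point of the facet `i`. -/
noncomputable def xv (u : Fin n → E4) (b : Fin n → ℝ) (p₀ : E4) (i : Fin n) : E4 :=
  (b i - ⟪u i, p₀⟫_ℝ)⁻¹ • u i

theorem inner_xv {u : Fin n → E4} {b : Fin n → ℝ} {p₀ : E4} {i : Fin n} (y : E4) :
    ⟪xv u b p₀ i, y⟫_ℝ = (b i - ⟪u i, p₀⟫_ℝ)⁻¹ * ⟪u i, y⟫_ℝ := by
  rw [xv, real_inner_smul_left]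

theorem inner_xv_le {u : Fin n → E4} {b : Fin n → ℝ} {p₀ : E4} {i : Fin n}
    (h : ⟪u i, p₀⟫_ℝ < b i) (p : E4) :
    (⟪xv u b p₀ i, p - p₀⟫_ℝ ≤ 1 ↔ ⟪u i, p⟫_ℝ ≤ b i) ∧
    (⟪xv u b p₀ i, p - p₀⟫_ℝ = 1 ↔ ⟪u i, p⟫_ℝ = b i) := by
  have h0 : 0 < b i - ⟪u i, p₀⟫_ℝ := by linarith
  rw [inner_xv, inner_sub_right, inv_mul_eq_div]
  constructor
  · rw [div_le_one h0]
    constructor <;> intro h' <;> linarith
  · rw [div_eq_one_iff_eq h0.ne']
    constructor <;> intro h' <;> linarith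

theorem finite_extreme (u : Fin n → E4) (b : Fin n → ℝ) :
    (Set.extremePoints ℝ (Poly u b)).Finite := by
  classical
  apply Set.Finite.of_finite_image (f := fun p : E4 => {i | ⟪u i, p⟫_ℝ = b i})
  · exact Set.toFinite _
  · intro p hp q hq he
    have he' : {i | ⟪u i, p⟫_ℝ = b i} = {i | ⟪u i, q⟫_ℝ = b i} := he
    have h1 := (mem_extreme.1 hp).2 (p - q) (by
      intro i hi
      have : i ∈ {i | ⟪u i, q⟫_ℝ = b i} := by rw [← he']; exact hi
      rw [inner_sub_right, hi, show ⟪u i, q⟫_ℝ = b i from this, sub_self])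
    exact sub_eq_zero.1 h1

open Classical in
/-- The dual points. -/
noncomputable def VV (Θ : E4 ≃ₗ[ℝ] (E × ℝ)) (u : Fin n → E4) (b : Fin n → ℝ) (p₀ : E4) :
    Finset (E × ℝ) := Finset.univ.image fun i => Θ (xv u b p₀ i)

/-- The vertices. -/
noncomputable def GG (u : Fin n → E4) (b : Fin n → ℝ) : Finset E4 := (finite_extreme u b).toFinset

theorem mem_GG {u : Fin n → E4} {b : Fin n → ℝ} {g : E4} :
    g ∈ GG u b ↔ g ∈ Set.extremePoints ℝ (Poly u b) := Set.Finite.mem_toFinset _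

theorem mem_VV {Θ : E4 ≃ₗ[ℝ] (E × ℝ)} {u : Fin n → E4} {b : Fin n → ℝ} {p₀ : E4} {v : E × ℝ} :
    v ∈ VV Θ u b p₀ ↔ ∃ i, Θ (xv u b p₀ i) = v := by
  simp [VV]

/-- **The data of a polytope.** -/
theorem pd (Θ : E4 ≃ₗ[ℝ] (E × ℝ)) {u : Fin n → E4} {b : Fin n → ℝ} (hP : IsPoly4 u b) {p₀ : E4}
    (h₀ : ∀ i, ⟪u i, p₀⟫_ℝ < b i) :
    PD (VV Θ u b p₀) (GG u b) (fun g => (rep Θ (g - p₀)).1) (fun g => (rep Θ (g - p₀)).2) := by
  have hpoly : ∀ p : E4, (∀ i, ⟪xv u b p₀ i, p - p₀⟫_ℝ ≤ 1) → p ∈ Poly u b :=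
    fun p hp i => (inner_xv_le (h₀ i) p).1.1 (hp i)
  have hzero : ∀ i (y : E4), ⟪xv u b p₀ i, y⟫_ℝ = 0 ↔ ⟪u i, y⟫_ℝ = 0 := by
    intro i y
    have h1 : (b i - ⟪u i, p₀⟫_ℝ)⁻¹ ≠ 0 := inv_ne_zero (by have := h₀ i; linarith)
    rw [inner_xv, mul_eq_zero]
    constructor
    · rintro (h | h)
      · exact absurd h h1
      · exact h
    · exact Or.inr
  refine ⟨?_, ?_, ?_, ?_, ?_, ?_⟩
  · intro g hg v hv
    obtain ⟨i, rfl⟩ := mem_VV.1 hv
    rw [val_rep]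
    exact (inner_xv_le (h₀ i) g).1.2 ((mem_extreme.1 (mem_GG.1 hg)).1 i)
  · intro g _ g' _ h1 h2
    have h3 : rep Θ (g - p₀) = rep Θ (g' - p₀) := Prod.ext h1 h2
    exact sub_left_injective (rep_inj h3)
  · intro g hg w' s' q' h
    obtain ⟨y, hy⟩ := rep_surj Θ w' s'
    have h1 : y - q' • (g - p₀) = 0 := by
      apply (mem_extreme.1 (mem_GG.1 hg)).2
      intro i hi
      rw [← hzero, inner_sub_right, inner_smul_right]
      have h2 := (inner_xv_le (h₀ i) g).2.2 hi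
      have h3 := h (Θ (xv u b p₀ i)) (mem_VV.2 ⟨i, rfl⟩) (by rw [val_rep]; exact h2)
      have h4 := val_rep Θ y (xv u b p₀ i)
      rw [hy] at h4
      rw [h2, ← h4, h3]
      ring
    have h2 := rep_sub_smul Θ y (g - p₀) q' (sub_eq_zero.1 h1)
    rw [hy] at h2
    exact h2
  · intro v hv
    obtain ⟨i, rfl⟩ := mem_VV.1 hv
    obtain ⟨p, hp, hpi⟩ := hP.facet i
    refine ⟨(rep Θ (p - p₀)).1, (rep Θ (p - p₀)).2, ?_⟩
    intro v' hv' hne
    obtain ⟨j, rfl⟩ := mem_VV.1 hv'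
    rw [val_rep, val_rep, (inner_xv_le (h₀ i) p).2.2 ((hpi i).2 rfl)]
    refine lt_of_le_of_ne ((inner_xv_le (h₀ j) p).1.2 (hp j)) ?_
    intro h
    apply hne
    rw [(hpi j).1 ((inner_xv_le (h₀ j) p).2.1 h)]
  · intro w' s' hle hsp
    obtain ⟨y, hy⟩ := rep_surj Θ w' s'
    have hv : ∀ i, val w' s' (Θ (xv u b p₀ i)) = ⟪xv u b p₀ i, (p₀ + y) - p₀⟫_ℝ := by
      intro i
      have h4 := val_rep Θ y (xv u b p₀ i)
      rw [hy] at h4
      rw [add_sub_cancel_left]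
      exact h4
    refine ⟨p₀ + y, ?_, ?_, ?_⟩
    · rw [mem_GG, mem_extreme]
      refine ⟨hpoly _ (fun i => ?_), fun y' hy' => ?_⟩
      · rw [← hv]
        exact hle _ (mem_VV.2 ⟨i, rfl⟩)
      · have h1 := hsp (rep Θ y').1 (rep Θ y').2 (by
          intro v hv' h1
          obtain ⟨i, rfl⟩ := mem_VV.1 hv'
          rw [val_rep, hzero]
          apply hy'
          rw [hv] at h1
          exact (inner_xv_le (h₀ i) _).2.1 h1)
        apply rep_inj (Θ := Θ)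
        rw [Prod.ext_iff, h1.1, h1.2]
        constructor
        · funext i
          fin_cases i <;> simp [rep]
        · simp [rep]
    · rw [add_sub_cancel_left, hy]
    · rw [add_sub_cancel_left, hy]
  · intro w' s' hne
    obtain ⟨y, hy⟩ := rep_surj Θ w' s'
    by_contra hcon
    push Not at hcon
    have hy0 : y ≠ 0 := by
      rintro rfl
      have h1 : rep Θ (0 : E4) = (0, 0) := by
        ext i
        · fin_cases i <;> simp [rep]
        · simp [rep]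
      rw [h1, Prod.ext_iff] at hy
      rcases hne with h | h
      · exact h hy.1.symm
      · exact h hy.2.symm
    have hle : ∀ i, ⟪u i, y⟫_ℝ ≤ 0 := by
      intro i
      have h4 := val_rep Θ y (xv u b p₀ i)
      rw [hy] at h4
      have h5 := hcon _ (mem_VV.2 ⟨i, rfl⟩)
      rw [h4, inner_xv] at h5
      have h6 : 0 < (b i - ⟪u i, p₀⟫_ℝ)⁻¹ := inv_pos.2 (by have := h₀ i; linarith)
      by_contra h7
      push Not at h7
      have := mul_pos h6 h7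
      linarith
    obtain ⟨R, hR⟩ := hP.bounded.exists_norm_le
    have hyn : 0 < ‖y‖ := norm_pos_iff.2 hy0
    set t : ℝ := (|R| + ‖p₀‖ + 1) / ‖y‖ with ht
    have ht0 : 0 < t := by positivity
    have h8 : p₀ + t • y ∈ Poly u b := by
      intro i
      rw [inner_add_right, inner_smul_right]
      have := hle i
      have := h₀ i
      nlinarith
    have h9 := hR _ h8
    have h10 : ‖t • y‖ ≤ ‖p₀ + t • y‖ + ‖p₀‖ := by
      have : t • y = (p₀ + t • y) - p₀ := by abel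
      calc ‖t • y‖ = ‖(p₀ + t • y) - p₀‖ := by rw [← this]
        _ ≤ _ := norm_sub_le _ _
    rw [norm_smul, Real.norm_eq_abs, abs_of_pos ht0, ht, div_mul_cancel₀ _ hyn.ne'] at h10
    have := le_abs_self R
    linarith

end TCC
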