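import Pool.Agent.TCC.Prim

/-!
# Three classes of facets with collinear apexes: the 2-faces
-/

set_option autoImplicit false

namespace TCC

open TPH TPH.Tr
open scoped InnerProductSpace

variable {n : ℕ}

theorem isExtreme_two (u : Fin n → E4) (b : Fin n → ℝ) (i j : Fin n) :
    IsExtreme ℝ (Poly u b) (Facet u b i ∩ Facet u b j) := by
  have key : ∀ k : Fin n, ∀ x₁ ∈ Poly u b, ∀ x₂ ∈ Poly u b, ∀ x, ⟪u k, x⟫_ℝ = b k →
      x ∈ openSegment ℝ x₁ x₂ → ⟪u k, x₁⟫_ℝ = b k := by
    rintro k x₁ hx₁ x₂ hx₂ x hx ⟨α, β, hα, hβ, hαβ, rfl⟩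
    rw [inner_add_right, inner_smul_right, inner_smul_right] at hx
    have h1 := hx₁ k
    have h2 := hx₂ k
    have h3 : α * (b k - ⟪u k, x₁⟫_ℝ) + β * (b k - ⟪u k, x₂⟫_ℝ) = 0 := by
      have : (α + β) * b k = b k := by rw [hαβ, one_mul]
      linarith
    have h4 : 0 ≤ α * (b k - ⟪u k, x₁⟫_ℝ) := mul_nonneg hα.le (by linarith)
    have h5 : 0 ≤ β * (b k - ⟪u k, x₂⟫_ℝ) := mul_nonneg hβ.le (by linarith)
    have h6 : α * (b k - ⟪u k, x₁⟫_ℝ) = 0 := by linarith
    rcases mul_eq_zero.1 h6 with h | h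
    · exact absurd h hα.ne'
    · linarith
  refine ⟨fun p hp => hp.1.1, ?_⟩
  intro x₁ hx₁ x₂ hx₂ x hx hseg
  exact ⟨⟨hx₁, key i x₁ hx₁ x₂ hx₂ x hx.1.2 hseg⟩, hx₁, key j x₁ hx₁ x₂ hx₂ x hx.2.2 hseg⟩

open Classical in
/-- The number of vertices of a 2-face. -/
theorem ncard_two (Θ : E4 ≃ₗ[ℝ] (E × ℝ)) {u : Fin n → E4} {b : Fin n → ℝ} {p₀ : E4}
    (h₀ : ∀ i, ⟪u i, p₀⟫_ℝ < b i) (i j : Fin n) :
    (Set.extremePoints ℝ (Facet u b i ∩ Facet u b j)).ncard =
      ((GG u b).filter (fun g =>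
        val (rep Θ (g - p₀)).1 (rep Θ (g - p₀)).2 (Θ (xv u b p₀ i)) = 1 ∧
        val (rep Θ (g - p₀)).1 (rep Θ (g - p₀)).2 (Θ (xv u b p₀ j)) = 1)).card := by
  rw [(isExtreme_two u b i j).extremePoints_eq, ← Set.ncard_coe_finset]
  congr 1
  ext g
  rw [Finset.mem_coe, Finset.mem_filter, mem_GG, val_rep, val_rep,
    (inner_xv_le (h₀ i) g).2, (inner_xv_le (h₀ j) g).2]
  constructor
  · rintro ⟨⟨h1, h2⟩, h3⟩
    exact ⟨h3, h1.2, h2.2⟩
  · rintro ⟨h3, h1, h2⟩
    exact ⟨⟨⟨h3.1, h1⟩, h3.1, h2⟩, h3⟩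

/-- In a 2-face there is a point which is in no third facet. -/
theorem exists_two {u : Fin n → E4} {b : Fin n → ℝ} (hP : IsPoly4 u b) {i j : Fin n} (hij : i ≠ j)
    (h2 : Module.finrank ℝ (vectorSpan ℝ (Facet u b i ∩ Facet u b j)) = 2) :
    ∃ p ∈ Poly u b, ∀ k, ⟪u k, p⟫_ℝ = b k ↔ k = i ∨ k = j := by
  classical
  have hne : (Facet u b i ∩ Facet u b j).Nonempty := by
    by_contra hcon
    rw [Set.not_nonempty_iff_eq_empty] at hcon
    rw [hcon, vectorSpan_empty, finrank_bot] at h2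
    omega
  -- no third facet contains the 2-face
  have hk : ∀ k, k ≠ i → k ≠ j → ∃ p ∈ Facet u b i ∩ Facet u b j, ⟪u k, p⟫_ℝ < b k := by
    intro k hki hkj
    by_contra hcon
    push Not at hcon
    have hall : ∀ p ∈ Facet u b i ∩ Facet u b j, ⟪u k, p⟫_ℝ = b k :=
      fun p hp => le_antisymm (hp.1.1 k) (hcon p hp)
    obtain ⟨p, hp⟩ := hne
    -- the three normals are dependent
    have hdep : ¬ LinearIndependent ℝ ![u i, u j, u k] := by
      intro hli
      have hsub : vectorSpan ℝ (Facet u b i ∩ Facet u b j) ≤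
          (Submodule.span ℝ (Set.range ![u i, u j, u k]))ᗮ := by
        rw [vectorSpan_def, Submodule.span_le]
        rintro _ ⟨x, hx, y, hy, rfl⟩
        rw [SetLike.mem_coe, Submodule.mem_orthogonal]
        intro v hv
        refine Submodule.span_induction (p := fun v _ => ⟪v, x -ᵥ y⟫_ℝ = 0) ?_ ?_ ?_ ?_ hv
        · rintro _ ⟨m, rfl⟩
          rw [vsub_eq_sub, inner_sub_right]
          fin_cases m
          · show ⟪u i, x⟫_ℝ - ⟪u i, y⟫_ℝ = 0
            rw [hx.1.2, hy.1.2, sub_self]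
          · show ⟪u j, x⟫_ℝ - ⟪u j, y⟫_ℝ = 0
            rw [hx.2.2, hy.2.2, sub_self]
          · show ⟪u k, x⟫_ℝ - ⟪u k, y⟫_ℝ = 0
            rw [hall x hx, hall y hy, sub_self]
        · rw [inner_zero_left]
        · intro a c _ _ ha hc
          rw [inner_add_left, ha, hc, add_zero]
        · intro r a _ ha
          rw [real_inner_smul_left, ha, mul_zero]
      have h3 := Submodule.finrank_mono hsub
      have h4 := Submodule.finrank_add_finrank_orthogonal
        (Submodule.span ℝ (Set.range ![u i, u j, u k]))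
      rw [finrank_span_eq_card hli] at h4
      have h5 : Module.finrank ℝ E4 = 4 := by simp
      rw [h5, Fintype.card_fin] at h4
      omega
    rw [Fintype.not_linearIndependent_iff] at hdep
    obtain ⟨g, hg, m, hm⟩ := hdep
    rw [Fin.sum_univ_three] at hg
    have hg' : g 0 • u i + g 1 • u j + g 2 • u k = 0 := hg
    have hq : ∀ q : E4, g 0 * (b i - ⟪u i, q⟫_ℝ) + g 1 * (b j - ⟪u j, q⟫_ℝ) +
        g 2 * (b k - ⟪u k, q⟫_ℝ) = 0 := by
      intro q
      have h3 : ⟪g 0 • u i + g 1 • u j + g 2 • u k, q⟫_ℝ = 0 := by rw [hg', inner_zero_left]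
      have h4 : ⟪g 0 • u i + g 1 • u j + g 2 • u k, p⟫_ℝ = 0 := by rw [hg', inner_zero_left]
      rw [inner_add_left, inner_add_left, real_inner_smul_left, real_inner_smul_left,
        real_inner_smul_left] at h3 h4
      rw [hp.1.2, hp.2.2, hall p hp] at h4
      linarith
    -- the points of the facets
    have hf : ∀ a c : Fin n, a ≠ c → ∀ q ∈ Poly u b, (∀ m, ⟪u m, q⟫_ℝ = b m ↔ m = a) →
        0 < b c - ⟪u c, q⟫_ℝ := by
      intro a c hac q hq hq'
      have h3 := hq c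
      have h4 : ⟪u c, q⟫_ℝ ≠ b c := fun h => hac ((hq' c).1 h).symm
      have h5 := lt_of_le_of_ne h3 h4
      linarith
    obtain ⟨pi, hpi, hpi'⟩ := hP.facet i
    obtain ⟨pj, hpj, hpj'⟩ := hP.facet j
    obtain ⟨pk, hpk, hpk'⟩ := hP.facet k
    have e1 := hq pi
    have e2 := hq pj
    have e3 := hq pk
    rw [(hpi' i).2 rfl, sub_self, mul_zero, zero_add] at e1
    rw [(hpj' j).2 rfl, sub_self, mul_zero, add_zero] at e2
    rw [(hpk' k).2 rfl, sub_self, mul_zero, add_zero] at e3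
    have a1 := hf i j hij pi hpi hpi'
    have a2 := hf i k (Ne.symm hki) pi hpi hpi'
    have a3 := hf j i (Ne.symm hij) pj hpj hpj'
    have a4 := hf j k (Ne.symm hkj) pj hpj hpj'
    have a5 := hf k i hki pk hpk hpk'
    have a6 := hf k j hkj pk hpk hpk'
    -- sign argument
    have hz : g 0 = 0 ∧ g 1 = 0 ∧ g 2 = 0 := by
      rcases lt_trichotomy (g 1) 0 with h | h | h
      · have h7 : 0 < g 2 := by
          by_contra h8
          push Not at h8
          have := mul_neg_of_neg_of_pos h a1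
          nlinarith
        have h8 : 0 < g 0 := by
          by_contra h9
          push Not at h9
          have := mul_neg_of_neg_of_pos h a6
          nlinarith
        have := mul_pos h8 a3
        have := mul_pos h7 a4
        linarith
      · rw [h, zero_mul, zero_add] at e1
        rw [h, zero_mul, add_zero] at e3
        refine ⟨?_, h, ?_⟩
        · rcases mul_eq_zero.1 e3 with h' | h'
          · exact h'
          · exact absurd h' a5.ne'
        · rcases mul_eq_zero.1 e1 with h' | h'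
          · exact h'
          · exact absurd h' a2.ne'
      · have h7 : g 2 < 0 := by
          by_contra h8
          push Not at h8
          have := mul_pos h a1
          have := mul_nonneg h8 a2.le
          linarith
        have h8 : g 0 < 0 := by
          by_contra h9
          push Not at h9
          have := mul_pos h a6
          have := mul_nonneg h9 a5.le
          linarith
        have := mul_neg_of_neg_of_pos h8 a3
        have := mul_neg_of_neg_of_pos h7 a4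
        linarith
    apply hm
    fin_cases m
    · exact hz.1
    · exact hz.2.1
    · exact hz.2.2
  -- induction
  have hind : ∀ S : Finset (Fin n), i ∉ S → j ∉ S → ∃ p ∈ Facet u b i ∩ Facet u b j,
      ∀ k ∈ S, ⟪u k, p⟫_ℝ < b k := by
    intro S
    induction S using Finset.induction_on with
    | empty =>
      intro _ _
      obtain ⟨p, hp⟩ := hne
      exact ⟨p, hp, fun k hk => absurd hk (Finset.notMem_empty k)⟩
    | insert k S hkS ih =>
      intro hi hj
      rw [Finset.mem_insert, not_or] at hi hj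
      obtain ⟨p, hp, hpS⟩ := ih hi.2 hj.2
      obtain ⟨q, hq, hqk⟩ := hk k (Ne.symm hi.1) (Ne.symm hj.1)
      have hmid : ∀ m, ⟪u m, (1 / 2 : ℝ) • p + (1 / 2 : ℝ) • q⟫_ℝ =
          (1 / 2) * ⟪u m, p⟫_ℝ + (1 / 2) * ⟪u m, q⟫_ℝ := by
        intro m
        rw [inner_add_right, inner_smul_right, inner_smul_right]
      have hpoly : (1 / 2 : ℝ) • p + (1 / 2 : ℝ) • q ∈ Poly u b := by
        intro m
        rw [hmid]
        have := hp.1.1 m
        have := hq.1.1 m
        linarith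
      refine ⟨(1 / 2 : ℝ) • p + (1 / 2 : ℝ) • q, ⟨⟨hpoly, ?_⟩, hpoly, ?_⟩, ?_⟩
      · rw [hmid, hp.1.2, hq.1.2]; ring
      · rw [hmid, hp.2.2, hq.2.2]; ring
      · intro m hm
        rw [hmid]
        rcases Finset.mem_insert.1 hm with h | h
        · rw [h]
          have := hp.1.1 k
          linarith
        · have := hpS m h
          have := hq.1.1 m
          linarith
  obtain ⟨p, hp, hpS⟩ := hind ((Finset.univ.erase i).erase j) (by simp) (by simp)
  refine ⟨p, hp.1.1, fun k => ⟨fun h => ?_, ?_⟩⟩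
  · by_contra hcon
    push Not at hcon
    have := hpS k (by simp [hcon.1, hcon.2])
    linarith
  · rintro (rfl | rfl)
    · exact hp.1.2
    · exact hp.2.2

/-- The exposing functional of a 2-face. -/
theorem exposed_pair (Θ : E4 ≃ₗ[ℝ] (E × ℝ)) {u : Fin n → E4} {b : Fin n → ℝ} (hP : IsPoly4 u b)
    {p₀ : E4} (h₀ : ∀ i, ⟪u i, p₀⟫_ℝ < b i) {i j : Fin n} (hij : i ≠ j)
    (h2 : Module.finrank ℝ (vectorSpan ℝ (Facet u b i ∩ Facet u b j)) = 2) :
    ∃ (w' : E) (s' : ℝ), (∀ v ∈ VV Θ u b p₀, val w' s' v ≤ 1) ∧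
      ∀ v ∈ VV Θ u b p₀, val w' s' v = 1 ↔ v = Θ (xv u b p₀ i) ∨ v = Θ (xv u b p₀ j) := by
  obtain ⟨p, hp, hpk⟩ := exists_two hP hij h2
  refine ⟨(rep Θ (p - p₀)).1, (rep Θ (p - p₀)).2, ?_, ?_⟩
  · intro v hv
    obtain ⟨k, rfl⟩ := mem_VV.1 hv
    rw [val_rep]
    exact (inner_xv_le (h₀ k) p).1.2 (hp k)
  · intro v hv
    obtain ⟨k, rfl⟩ := mem_VV.1 hv
    rw [val_rep, (inner_xv_le (h₀ k) p).2, hpk]
    constructor
    · rintro (rfl | rfl)
      · exact Or.inl rfl
      · exact Or.inr rfl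
    · have key : ∀ m, Θ (xv u b p₀ k) = Θ (xv u b p₀ m) → k = m := by
        intro m h
        obtain ⟨q, hq, hqk⟩ := hP.facet k
        have h3 := (inner_xv_le (h₀ k) q).2.2 ((hqk k).2 rfl)
        rw [Θ.injective h] at h3
        exact ((hqk m).1 ((inner_xv_le (h₀ m) q).2.1 h3)).symm
      rintro (h | h)
      · exact Or.inl (key i h)
      · exact Or.inr (key j h)

theorem xv_inj (Θ : E4 ≃ₗ[ℝ] (E × ℝ)) {u : Fin n → E4} {b : Fin n → ℝ} (hP : IsPoly4 u b)
    {p₀ : E4} (h₀ : ∀ i, ⟪u i, p₀⟫_ℝ < b i) :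
    Function.Injective fun i => Θ (xv u b p₀ i) := by
  intro k m h
  obtain ⟨q, hq, hqk⟩ := hP.facet k
  have h3 := (inner_xv_le (h₀ k) q).2.2 ((hqk k).2 rfl)
  rw [Θ.injective h] at h3
  exact ((hqk m).1 ((inner_xv_le (h₀ m) q).2.1 h3)).symm

end TCC
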