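import Pool.Agent.TCC.Count
import Pool.Agent.TCC.Pair
import Pool.Agent.TPH.TrC

/-!
# Three classes of facets with collinear apexes: the upper bound
-/

set_option autoImplicit false

namespace TCC

open TPH TPH.Tr
open scoped InnerProductSpace

theorem sq_to_rpow {N K n : ℕ} (h : N ^ 2 ≤ K * n ^ 3) :
    (N : ℝ) ≤ √K * (n : ℝ) ^ (3 / 2 : ℝ) := by
  have h2 : (N : ℝ) ^ 2 ≤ K * (n : ℝ) ^ 3 := by exact_mod_cast h
  have hn0 : (0 : ℝ) ≤ n := Nat.cast_nonneg n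
  have h3 : ((n : ℝ) ^ (3 / 2 : ℝ)) ^ 2 = (n : ℝ) ^ 3 := by
    rw [← Real.rpow_natCast, ← Real.rpow_mul hn0, ← Real.rpow_natCast]
    norm_num
  have h4 : (0 : ℝ) ≤ (n : ℝ) ^ (3 / 2 : ℝ) := Real.rpow_nonneg hn0 _
  apply le_of_sq_le_sq _ (by positivity)
  rw [mul_pow, Real.sq_sqrt (Nat.cast_nonneg K), h3]
  exact h2

theorem lin_to_rpow (n : ℕ) : (n : ℝ) ≤ (n : ℝ) ^ (3 / 2 : ℝ) := by
  rcases Nat.eq_zero_or_pos n with h | h
  · rw [h]
    norm_num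
  · have h1n : (1 : ℝ) ≤ n := by exact_mod_cast h
    calc (n : ℝ) = (n : ℝ) ^ (1 : ℝ) := (Real.rpow_one _).symm
      _ ≤ (n : ℝ) ^ (3 / 2 : ℝ) := Real.rpow_le_rpow_of_exponent_le h1n (by norm_num)

/-- **The count of all bad pairs.** -/
theorem count_bad (hAC : StmtNonQuadAC) (hAB : StmtNonQuadAB) : ∃ K : ℝ, 0 < K ∧
    ∀ (V : Finset (E × ℝ)) (ι : Type) (G : Finset ι) (w : ι → E) (s : ι → ℝ) (t : Fin 3 → ℝ)
      (S : Finset ((E × ℝ) × (E × ℝ))), PD V G w s → (∀ v ∈ V, ∃ i, v.2 = t i) →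
      (∀ p ∈ S, IsBad V G w s p) → (S.card : ℝ) ≤ K * (V.card : ℝ) ^ (3 / 2 : ℝ) := by
  classical
  obtain ⟨K₁, hK₁⟩ := hAC
  obtain ⟨K₂, hK₂⟩ := hAB
  refine ⟨4 * √K₁ + 2 * √K₂ + 24, by positivity, ?_⟩
  intro V ι G w s t S D ht hS
  obtain ⟨t₁, t₂, t₃, h12, h23, hts⟩ := exists_sorted t
  have hl : ∀ v ∈ V, v.2 = t₁ ∨ v.2 = t₂ ∨ v.2 = t₃ := by
    intro v hv
    obtain ⟨i, hi⟩ := ht v hv
    rw [hi]
    exact hts i
  have h13 : t₁ < t₃ := h12.trans h23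
  obtain ⟨α, hα⟩ : ∃ α, α = (t₃ - t₂) / (t₃ - t₁) := ⟨_, rfl⟩
  obtain ⟨β, hβ⟩ : ∃ β, β = (t₂ - t₁) / (t₃ - t₁) := ⟨_, rfl⟩
  have hd : 0 < t₃ - t₁ := by linarith
  have hα0 : 0 < α := by rw [hα]; exact div_pos (by linarith) hd
  have hβ0 : 0 < β := by rw [hβ]; exact div_pos (by linarith) hd
  have hαβ : α + β = 1 := by
    rw [hα, hβ, ← add_div, div_eq_one_iff_eq hd.ne']
    ring
  have htt : α * t₁ + β * t₃ = t₂ := by
    have e1 : α * (t₃ - t₁) = t₃ - t₂ := by rw [hα, div_mul_cancel₀ _ hd.ne']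
    have e2 : β * (t₃ - t₁) = t₂ - t₁ := by rw [hβ, div_mul_cancel₀ _ hd.ne']
    have e3 : (α * t₁ + β * t₃ - t₂) * (t₃ - t₁) = 0 := by
      linear_combination t₁ * e1 + t₃ * e2
    rcases mul_eq_zero.1 e3 with h | h
    · linarith
    · exact absurd h hd.ne'
  have htt' : β * t₃ + α * t₁ = t₂ := by linarith
  have hβα : β + α = 1 := by linarith
  have hl' : ∀ v ∈ V, v.2 = t₃ ∨ v.2 = t₂ ∨ v.2 = t₁ := by
    intro v hv
    rcases hl v hv with h | h | h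
    · exact Or.inr (Or.inr h)
    · exact Or.inr (Or.inl h)
    · exact Or.inl h
  -- the nine classes
  obtain ⟨Q, hQ⟩ : ∃ Q : ℝ → ℝ → Finset ((E × ℝ) × (E × ℝ)),
      ∀ a c, Q a c = S.filter (fun p => p.1.2 = a ∧ p.2.2 = c) := ⟨_, fun _ _ => rfl⟩
  have hQm : ∀ a c p, p ∈ Q a c → IsBad V G w s p ∧ p.1.2 = a ∧ p.2.2 = c := by
    intro a c p hp
    rw [hQ, Finset.mem_filter] at hp
    exact ⟨hS p hp.1, hp.2⟩
  have hsw : ∀ a c p, p ∈ (Q a c).image Prod.swap → IsBad V G w s p ∧ p.1.2 = c ∧ p.2.2 = a := by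
    intro a c p hp
    obtain ⟨p', hp', rfl⟩ := Finset.mem_image.1 hp
    obtain ⟨h1, h2, h3⟩ := hQm a c p' hp'
    exact ⟨h1.swap, h3, h2⟩
  have hswc : ∀ a c, ((Q a c).image Prod.swap).card = (Q a c).card := fun a c =>
    Finset.card_image_of_injective _ Prod.swap_injective
  have c11 := same_le TPH.Closed.edge_lin D.exp one_pos (Q t₁ t₁) (hQm t₁ t₁)
  have c22 := same_le TPH.Closed.edge_lin D.exp one_pos (Q t₂ t₂) (hQm t₂ t₂)
  have c33 := same_le TPH.Closed.edge_lin D.exp one_pos (Q t₃ t₃) (hQm t₃ t₃)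
  have c12 := ac_le hK₁ D hα0 hβ0 hαβ htt h12.ne h13.ne h23.ne hl (Q t₁ t₂) (hQm t₁ t₂)
  have c21 := ac_le hK₁ D hα0 hβ0 hαβ htt h12.ne h13.ne h23.ne hl ((Q t₂ t₁).image Prod.swap)
    (hsw t₂ t₁)
  have c32 := ac_le hK₁ D hβ0 hα0 hβα htt' h23.ne' h13.ne' h12.ne' hl' (Q t₃ t₂) (hQm t₃ t₂)
  have c23 := ac_le hK₁ D hβ0 hα0 hβα htt' h23.ne' h13.ne' h12.ne' hl'
    ((Q t₂ t₃).image Prod.swap) (hsw t₂ t₃)
  have c13 := ab_le hK₂ D hα0 hβ0 hαβ htt h12.ne h13.ne h23.ne hl (Q t₁ t₃) (hQm t₁ t₃)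
  have c31 := ab_le hK₂ D hα0 hβ0 hαβ htt h12.ne h13.ne h23.ne hl ((Q t₃ t₁).image Prod.swap)
    (hsw t₃ t₁)
  rw [hswc] at c21 c23 c31
  have r12 := sq_to_rpow c12
  have r21 := sq_to_rpow c21
  have r32 := sq_to_rpow c32
  have r23 := sq_to_rpow c23
  have r13 := sq_to_rpow c13
  have r31 := sq_to_rpow c31
  have hcl := card_lay h12.ne h13.ne h23.ne hl
  -- S is the union
  have hsub : S ⊆ (Q t₁ t₁ ∪ Q t₂ t₂ ∪ Q t₃ t₃) ∪ (Q t₁ t₂ ∪ Q t₂ t₁ ∪ Q t₃ t₂ ∪ Q t₂ t₃) ∪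
      (Q t₁ t₃ ∪ Q t₃ t₁) := by
    intro p hp
    obtain ⟨⟨w', s', h1⟩, -⟩ := hS p hp
    have hm : ∀ a c, p.1.2 = a → p.2.2 = c → p ∈ Q a c := by
      intro a c ha hc
      rw [hQ, Finset.mem_filter]
      exact ⟨hp, ha, hc⟩
    rcases hl p.1 h1.hx with h | h | h
    · rcases hl p.2 h1.hy with h' | h' | h'
      · exact Finset.mem_union_left _ (Finset.mem_union_left _ (Finset.mem_union_left _
          (Finset.mem_union_left _ (hm _ _ h h'))))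
      · exact Finset.mem_union_left _ (Finset.mem_union_right _ (Finset.mem_union_left _
          (Finset.mem_union_left _ (Finset.mem_union_left _ (hm _ _ h h')))))
      · exact Finset.mem_union_right _ (Finset.mem_union_left _ (hm _ _ h h'))
    · rcases hl p.2 h1.hy with h' | h' | h'
      · exact Finset.mem_union_left _ (Finset.mem_union_right _ (Finset.mem_union_left _
          (Finset.mem_union_left _ (Finset.mem_union_right _ (hm _ _ h h')))))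
      · exact Finset.mem_union_left _ (Finset.mem_union_left _ (Finset.mem_union_left _
          (Finset.mem_union_right _ (hm _ _ h h'))))
      · exact Finset.mem_union_left _ (Finset.mem_union_right _ (Finset.mem_union_right _
          (hm _ _ h h')))
    · rcases hl p.2 h1.hy with h' | h' | h'
      · exact Finset.mem_union_right _ (Finset.mem_union_right _ (hm _ _ h h'))
      · exact Finset.mem_union_left _ (Finset.mem_union_right _ (Finset.mem_union_left _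
          (Finset.mem_union_right _ (hm _ _ h h'))))
      · exact Finset.mem_union_left _ (Finset.mem_union_left _ (Finset.mem_union_right _
          (hm _ _ h h')))
  have hc1 : S.card ≤ (Q t₁ t₁).card + (Q t₂ t₂).card + (Q t₃ t₃).card +
      ((Q t₁ t₂).card + (Q t₂ t₁).card + (Q t₃ t₂).card + (Q t₂ t₃).card) +
      ((Q t₁ t₃).card + (Q t₃ t₁).card) := by
    refine (Finset.card_le_card hsub).trans ?_
    refine (Finset.card_union_le _ _).trans (Nat.add_le_add ?_ (Finset.card_union_le _ _))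
    refine (Finset.card_union_le _ _).trans (Nat.add_le_add ?_ ?_)
    · exact (Finset.card_union_le _ _).trans (Nat.add_le_add (Finset.card_union_le _ _) le_rfl)
    · refine (Finset.card_union_le _ _).trans (Nat.add_le_add ?_ le_rfl)
      exact (Finset.card_union_le _ _).trans (Nat.add_le_add (Finset.card_union_le _ _) le_rfl)
  have hc2 : S.card ≤ 24 * V.card +
      ((Q t₁ t₂).card + (Q t₂ t₁).card + (Q t₃ t₂).card + (Q t₂ t₃).card) +
      ((Q t₁ t₃).card + (Q t₃ t₁).card) := by omega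
  have hc3 : (S.card : ℝ) ≤ 24 * V.card +
      ((Q t₁ t₂).card + (Q t₂ t₁).card + (Q t₃ t₂).card + (Q t₂ t₃).card) +
      ((Q t₁ t₃).card + (Q t₃ t₁).card) := by exact_mod_cast hc2
  have hlin := lin_to_rpow V.card
  obtain ⟨X, hX⟩ : ∃ X, X = (V.card : ℝ) ^ (3 / 2 : ℝ) := ⟨_, rfl⟩
  rw [← hX] at r12 r21 r32 r23 r13 r31 hlin ⊢
  have : (4 * √K₁ + 2 * √K₂ + 24) * X = 4 * (√K₁ * X) + 2 * (√K₂ * X) + 24 * X := by ring
  rw [this]
  linarith

variable {n : ℕ}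

/-- The 2-faces which are not 4-gons. -/
def NonQuads (u : Fin n → E4) (b : Fin n → ℝ) : Set (Fin n × Fin n) :=
  {e | e.1 < e.2 ∧ Module.finrank ℝ (vectorSpan ℝ (Facet u b e.1 ∩ Facet u b e.2)) = 2 ∧
    (Set.extremePoints ℝ (Facet u b e.1 ∩ Facet u b e.2)).ncard ≠ 4}

/-- **The upper bound.** -/
theorem upper (hAC : StmtNonQuadAC) (hAB : StmtNonQuadAB) : ∃ K : ℝ, 0 < K ∧
    ∀ (n : ℕ) (u : Fin n → E4) (b : Fin n → ℝ) (p₀ d : E4) (s : Fin 3 → ℝ) (c : Fin n → Fin 3),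
      IsPoly4 u b → (∀ i, ⟪u i, p₀⟫_ℝ < b i) → d ≠ 0 →
      (∀ i, ⟪u i, d⟫_ℝ = s (c i) * (b i - ⟪u i, p₀⟫_ℝ)) →
      ((NonQuads u b).ncard : ℝ) ≤ K * (n : ℝ) ^ (3 / 2 : ℝ) := by
  classical
  obtain ⟨K, hK0, hK⟩ := count_bad hAC hAB
  refine ⟨K, hK0, ?_⟩
  intro n u b p₀ d s c hP h₀ hd hcl
  have hdim : Module.finrank ℝ E4 = 4 := by simp
  let l : E4 →ₗ[ℝ] ℝ := (innerSL ℝ d : E4 →L[ℝ] ℝ)
  have hl : ∀ v, l v = ⟪d, v⟫_ℝ := fun v => rfl
  have hl0 : l ≠ 0 := by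
    intro h
    have h1 := LinearMap.congr_fun h d
    rw [hl, LinearMap.zero_apply, inner_self_eq_zero] at h1
    exact hd h1
  obtain ⟨Θ, hΘ⟩ := exists_coord hdim l hl0
  have hht : ∀ i, (Θ (xv u b p₀ i)).2 = s (c i) := by
    intro i
    have h1 : b i - ⟪u i, p₀⟫_ℝ ≠ 0 := by have := h₀ i; linarith
    rw [hΘ, hl, real_inner_comm, inner_xv, hcl, mul_comm (s (c i)), ← mul_assoc,
      inv_mul_cancel₀ h1, one_mul]
  have D := pd Θ hP h₀
  have hinj := xv_inj Θ hP h₀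
  obtain ⟨ψ, hψ⟩ : ∃ ψ : Fin n × Fin n → (E × ℝ) × (E × ℝ),
      ψ = fun e => (Θ (xv u b p₀ e.1), Θ (xv u b p₀ e.2)) := ⟨_, rfl⟩
  have hψinj : Function.Injective ψ := by
    intro e e' h
    rw [hψ, Prod.ext_iff] at h
    exact Prod.ext (hinj h.1) (hinj h.2)
  have hfin : (NonQuads u b).Finite := Set.toFinite _
  obtain ⟨S, hS⟩ : ∃ S : Finset ((E × ℝ) × (E × ℝ)), S = hfin.toFinset.image ψ := ⟨_, rfl⟩
  have hcard : S.card = (NonQuads u b).ncard := by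
    rw [hS, Finset.card_image_of_injective _ hψinj, Set.ncard_eq_toFinset_card _ hfin]
  have hV : (VV Θ u b p₀).card = n := by
    rw [VV, Finset.card_image_of_injective _ hinj, Finset.card_univ, Fintype.card_fin]
  have h1 := hK (VV Θ u b p₀) E4 (GG u b) _ _ s S D (by
    intro v hv
    obtain ⟨i, rfl⟩ := mem_VV.1 hv
    exact ⟨c i, hht i⟩) (by
    intro p hp
    rw [hS, Finset.mem_image] at hp
    obtain ⟨e, he, rfl⟩ := hp
    rw [Set.Finite.mem_toFinset] at he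
    obtain ⟨h1, h2, h3⟩ := he
    obtain ⟨w', s', h4, h5⟩ := exposed_pair Θ hP h₀ h1.ne h2
    rw [ncard_two Θ h₀] at h3
    rw [hψ]
    refine ⟨⟨w', s', mem_VV.2 ⟨e.1, rfl⟩, mem_VV.2 ⟨e.2, rfl⟩, ?_, h4, h5⟩, h3⟩
    intro h
    exact h1.ne (hinj h))
  rw [hcard, hV] at h1
  exact h1

end TCC
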