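import Pool.Agent.TCC.Lower

/-!
# Three classes of facets with collinear apexes: the example, the count
-/

set_option autoImplicit false

namespace TCC

open TPH.Low
open scoped InnerProductSpace

/-- The functional of a pair of nodes outside the discs. -/
theorem fxy_le {q m l s t i j : ℕ} (hq : 2 ≤ q) (hi : i < q) (hj : j < q)
    (hij : 1 ≤ av q i ^ 2 + av q j ^ 2) : ∀ w ∈ TPH.Low.VV q m l,
    fxy (nd q (s * q + i + 1)) (nd q (t * q + j + 1)) w ≤ nd q (s * q + i + 1) ^ 2 := by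
  have hq0 : 0 < q := by omega
  intro w hw
  rw [TPH.Low.mem_VV] at hw
  rcases hw with ⟨k, -, rfl⟩ | ⟨k, -, rfl⟩ | ⟨s', t', -, -, rfl⟩
  · rw [fxy_a]
    have := prod_nonneg hq0 (s * q + i + 1) k
    linarith
  · rw [fxy_b]
    have := prod_nonneg hq0 (t * q + j + 1) k
    linarith
  · by_cases h : s' = s ∧ t' = t
    · obtain ⟨rfl, rfl⟩ := h
      rw [fxy_c, nd_block _ hi, nd_block _ hj]
      dsimp only
      have e1 : (3 * (s' : ℝ) + av q i - 3 * (s' : ℝ)) = av q i := by ring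
      have e2 : (3 * (t' : ℝ) + av q j - 3 * (t' : ℝ)) = av q j := by ring
      rw [e1, e2]
      linarith
    · exact (c_lt hi hj h).le

/-- A strict one. -/
theorem fxy_strict {q m l s t i j : ℕ} (hq : 2 ≤ q) (hi : i < q) (hj : j < q) :
    ∃ w ∈ TPH.Low.VV q m l,
    fxy (nd q (s * q + i + 1)) (nd q (t * q + j + 1)) w < nd q (s * q + i + 1) ^ 2 := by
  obtain ⟨s', hs', hne⟩ : ∃ s', s' < q ∧ s' ≠ s := by
    by_cases h : s = 0
    · exact ⟨1, by omega, by omega⟩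
    · exact ⟨0, by omega, by omega⟩
  refine ⟨pc (s', 0), TPH.Low.mem_VV.2 (Or.inr (Or.inr ⟨s', 0, hs', by omega, rfl⟩)), ?_⟩
  exact c_lt hi hj (fun h => hne h.1)

theorem ext_fn {y : E4} (h : ∀ v : E4, ⟪v, y⟫_ℝ = 0) : y = 0 := by
  have := h y
  rwa [inner_self_eq_zero] at this

/-- The points span. -/
theorem span_VV {q m l : ℕ} (hq : 2 ≤ q) (hm : q * q < m) (hl : q * q < l) {y : E4} {c : ℝ}
    (h : ∀ w ∈ TPH.Low.VV q m l, ⟪w, y⟫_ℝ = c) : y = 0 := by
  classical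
  have hq0 : 0 < q := by omega
  have hfil := ff_filter (q := q) (m := m) (l := l) (z := (0, 0, 0)) hq0 hm hl hq0 hq0 hq0
  have hz : ∀ v : E4, ⟪v, y⟫_ℝ = c * ff q (0, 0, 0) v := by
    intro v
    have hv : v ∈ Submodule.span ℝ ((F5 q (0, 0, 0) : Finset E4) : Set E4) := by
      rw [F5_span hq0]
      exact Submodule.mem_top
    refine Submodule.span_induction (p := fun v _ => ⟪v, y⟫_ℝ = c * ff q (0, 0, 0) v) ?_ ?_ ?_ ?_ hv
    · intro w hw
      rw [Finset.mem_coe, ← hfil, Finset.mem_filter] at hw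
      rw [h w hw.1, hw.2, mul_one]
    · rw [inner_zero_left, map_zero, mul_zero]
    · intro a b _ _ ha hb
      rw [inner_add_left, ha, hb, map_add, mul_add]
    · intro r a _ ha
      rw [real_inner_smul_left, ha, map_smul, smul_eq_mul]
      ring
  have hmem : pa q 2 ∈ TPH.Low.VV q m l := by
    refine TPH.Low.mem_VV.2 (Or.inl ⟨2, ?_, rfl⟩)
    nlinarith
  have hne : ff q (0, 0, 0) (pa q 2) ≠ 1 := by
    intro h1
    have h2 : pa q 2 ∈ (TPH.Low.VV q m l).filter (fun v => ff q (0, 0, 0) v = 1) :=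
      Finset.mem_filter.2 ⟨hmem, h1⟩
    rw [hfil] at h2
    simp only [F5, Finset.mem_insert, Finset.mem_singleton] at h2
    rcases h2 with h | h | h | h | h
    · have := pa_inj hq0 h
      omega
    · have := pa_inj hq0 h
      omega
    · exact pa_ne_pb _ _ _ h
    · exact pa_ne_pb _ _ _ h
    · exact pa_ne_pc _ _ _ h
  have h1 := hz (pa q 2)
  rw [h _ hmem] at h1
  have h2 : c * (1 - ff q (0, 0, 0) (pa q 2)) = 0 := by linarith
  have hc : c = 0 := by
    rcases mul_eq_zero.1 h2 with h3 | h3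
    · exact h3
    · exact absurd (by linarith) hne
  apply ext_fn
  intro v
  rw [hz v, hc, zero_mul]

theorem third (v : E4) : ⟪v, mk 0 0 0 1⟫_ℝ = v 3 := by
  rw [inner_mk, fn_apply]
  ring

/-- The example with an enumeration of the points. -/
theorem exm {q m l n : ℕ} (hq : 2 ≤ q) (hm : q * q < m) (hl : q * q < l)
    (hn : m + (l + q * q) = n) : ∃ (u : Fin n → E4) (b : Fin n → ℝ) (p₀ d : E4) (s : Fin 3 → ℝ)
      (c : Fin n → Fin 3), IsPoly4 u b ∧ (∀ i, ⟪u i, p₀⟫_ℝ < b i) ∧ d ≠ 0 ∧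
      (∀ i, ⟪u i, d⟫_ℝ = s (c i) * (b i - ⟪u i, p₀⟫_ℝ)) ∧
      q * q * (q - 1) ≤ (NonQuads u b).ncard := by
  classical
  have hq0 : 0 < q := by omega
  have hcard : (TPH.Low.VV q m l).card = n := by rw [card_VV hq0, hn]
  obtain ⟨e⟩ : Nonempty (Fin n ≃ TPH.Low.VV q m l) :=
    ⟨((TPH.Low.VV q m l).equivFinOfCardEq hcard).symm⟩
  obtain ⟨v, hv⟩ : ∃ v : Fin n → E4, v = fun i => ((e i : TPH.Low.VV q m l) : E4) := ⟨_, rfl⟩
  have hvm : ∀ i, v i ∈ TPH.Low.VV q m l := by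
    intro i
    rw [hv]
    exact (e i).2
  have hinj : Function.Injective v := by
    intro i j h
    rw [hv] at h
    exact e.injective (Subtype.ext h)
  have hsur : ∀ w ∈ TPH.Low.VV q m l, ∃ i, v i = w := by
    intro w hw
    refine ⟨e.symm ⟨w, hw⟩, ?_⟩
    rw [hv]
    simp
  have hn2 : 2 ≤ n := by nlinarith
  have hexp : ∀ i, ∃ f : E4 →L[ℝ] ℝ, ∀ j, j ≠ i → f (v j) < f (v i) := by
    intro i
    obtain ⟨f, hf⟩ := expd hq m l (v i) (hvm i)
    exact ⟨f, fun j hj => hf (v j) (hvm j) (fun h => hj (hinj h))⟩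
  have hspan : ∀ y : E4, (∀ i j, ⟪v i, y⟫_ℝ = ⟪v j, y⟫_ℝ) → y = 0 := by
    intro y h
    refine span_VV hq hm hl (c := ⟪v ⟨0, by omega⟩, y⟫_ℝ) (fun w hw => ?_)
    obtain ⟨i, rfl⟩ := hsur w hw
    exact h i _
  have hP := polar_poly hn2 hexp hspan
  have hh : ∀ i, v i 3 = 0 ∨ v i 3 = 1 / 2 ∨ v i 3 = 1 := by
    intro i
    have := hvm i
    rw [TPH.Low.mem_VV] at this
    rcases this with ⟨k, -, hk⟩ | ⟨k, -, hk⟩ | ⟨s', t', -, -, hk⟩
    · left
      rw [← hk]
      simp [pa, mk]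
    · right; right
      rw [← hk]
      simp [pb, mk]
    · right; left
      rw [← hk]
      simp [pc, mk]
  refine ⟨fun i => v i - ctr v, fun _ => 1, 0, mk 0 0 0 1,
    fun a => ![0, 1 / 2, 1] a - ctr v 3,
    fun i => if v i 3 = 0 then 0 else if v i 3 = 1 / 2 then 1 else 2, hP, ?_, ?_, ?_, ?_⟩
  · intro i
    rw [inner_zero_right]
    norm_num
  · intro h
    have h1 := congrFun (congrArg (fun v : E4 => v.ofLp) h) 3
    simp [mk] at h1
  · intro i
    rw [third, inner_zero_right]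
    have e1 : (v i - ctr v) 3 = v i 3 - ctr v 3 := rfl
    rw [e1]
    beta_reduce
    rcases hh i with h | h | h
    · rw [if_pos h, h]
      simp
    · rw [if_neg (by rw [h]; norm_num), if_pos h, h]
      simp
    · rw [if_neg (by rw [h]; norm_num), if_neg (by rw [h]; norm_num), h]
      simp
  · -- the triangles
    have hidx : ∀ w ∈ TPH.Low.VV q m l, ∃ i, v i = w := hsur
    obtain ⟨ia, hia⟩ : ∃ ia : ℕ → Fin n, ∀ k, k < m → v (ia k) = pa q k := by
      have : ∀ k, ∃ i : Fin n, k < m → v i = pa q k := by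
        intro k
        by_cases hk : k < m
        · obtain ⟨i, hi⟩ := hsur _ (TPH.Low.mem_VV.2 (Or.inl ⟨k, hk, rfl⟩))
          exact ⟨i, fun _ => hi⟩
        · exact ⟨⟨0, by omega⟩, fun h => absurd h hk⟩
      choose ia hia using this
      exact ⟨ia, hia⟩
    obtain ⟨ib, hib⟩ : ∃ ib : ℕ → Fin n, ∀ k, k < l → v (ib k) = pb q k := by
      have : ∀ k, ∃ i : Fin n, k < l → v i = pb q k := by
        intro k
        by_cases hk : k < l
        · obtain ⟨i, hi⟩ := hsur _ (TPH.Low.mem_VV.2 (Or.inr (Or.inl ⟨k, hk, rfl⟩)))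
          exact ⟨i, fun _ => hi⟩
        · exact ⟨⟨0, by omega⟩, fun h => absurd h hk⟩
      choose ib hib using this
      exact ⟨ib, hib⟩
    -- the key statement
    have key : ∀ s t i : ℕ, s < q → t < q → i + 1 < q →
        Module.finrank ℝ (vectorSpan ℝ (Facet (fun i => v i - ctr v) (fun _ => 1)
          (ia (s * q + i + 1)) ∩ Facet (fun i => v i - ctr v) (fun _ => 1)
          (ib (t * q + (q - 2 - i) + 1)))) = 2 ∧
        (Set.extremePoints ℝ (Facet (fun i => v i - ctr v) (fun _ => 1)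
          (ia (s * q + i + 1)) ∩ Facet (fun i => v i - ctr v) (fun _ => 1)
          (ib (t * q + (q - 2 - i) + 1)))).ncard ≤ 3 := by
      intro s t i hs ht hi
      have a1 : s * q + i + 2 ≤ q * q := by
        have : (s + 1) * q ≤ q * q := Nat.mul_le_mul_right q hs
        nlinarith
      have a2 : t * q + (q - 2 - i) + 2 ≤ q * q := by
        have : (t + 1) * q ≤ q * q := Nat.mul_le_mul_right q ht
        have h2 : (t + 1) * q = t * q + q := by ring
        omega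
      have hi1 : i < q := by omega
      have hj1 : q - 1 - i < q := by omega
      have hj2 : q - 1 - (i + 1) < q := by omega
      have ej : t * q + (q - 2 - i) + 1 = t * q + (q - 1 - (i + 1)) + 1 := by omega
      have ej' : t * q + (q - 2 - i) + 1 + 1 = t * q + (q - 1 - i) + 1 := by omega
      have ei' : s * q + i + 1 + 1 = s * q + (i + 1) + 1 := by omega
      have s1 := av_add hi1
      have s2 := av_add hi
      have s3 : 1 < av q (i + 1) ^ 2 + av q (q - 1 - i) ^ 2 := by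
        have h1 := av_sq q i
        have h2 := av_sq q (i + 1)
        have h3 : ((i : ℝ) + 1) / (q + 1) < (((i + 1 : ℕ) : ℝ) + 1) / (q + 1) := by
          push_cast
          apply div_lt_div_of_pos_right _ (by positivity)
          linarith
        linarith
      -- the three pairs
      obtain ⟨x₀, hx₀⟩ : ∃ x, x = nd q (s * q + i + 1) := ⟨_, rfl⟩
      obtain ⟨x₁, hx₁⟩ : ∃ x, x = nd q (s * q + (i + 1) + 1) := ⟨_, rfl⟩
      obtain ⟨x₂, hx₂⟩ : ∃ x, x = nd q (s * q + (i + 1) + 1 + 1) := ⟨_, rfl⟩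
      obtain ⟨y₀, hy₀⟩ : ∃ x, x = nd q (t * q + (q - 1 - (i + 1)) + 1) := ⟨_, rfl⟩
      obtain ⟨y₁, hy₁⟩ : ∃ x, x = nd q (t * q + (q - 1 - i) + 1) := ⟨_, rfl⟩
      obtain ⟨y₂, hy₂⟩ : ∃ x, x = nd q (t * q + (q - 1 - i) + 1 + 1) := ⟨_, rfl⟩
      have lx : x₀ < x₁ := by
        rw [hx₀, hx₁, ← ei']
        exact nd_lt hq0 _
      have lx2 : x₁ < x₂ := by
        rw [hx₁, hx₂]
        exact nd_lt hq0 _
      have ly : y₀ < y₁ := by
        rw [hy₀, hy₁, ← ej, ← ej']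
        exact nd_lt hq0 _
      have ly2 : y₁ < y₂ := by
        rw [hy₁, hy₂]
        exact nd_lt hq0 _
      have f1 : ∀ j, fxy x₀ y₁ (v j) ≤ x₀ ^ 2 := by
        intro j
        rw [hx₀, hy₁]
        exact fxy_le hq hi1 hj1 s1.ge _ (hvm j)
      have f2 : ∀ j, fxy x₁ y₀ (v j) ≤ x₁ ^ 2 := by
        intro j
        rw [hx₁, hy₀]
        exact fxy_le hq hi hj2 s2.ge _ (hvm j)
      have f3 : ∀ j, fxy x₁ y₁ (v j) ≤ x₁ ^ 2 := by
        intro j
        rw [hx₁, hy₁]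
        exact fxy_le hq hi hj1 s3.le _ (hvm j)
      have g1 : fxy x₀ y₁ (ctr v) < x₀ ^ 2 := by
        obtain ⟨w, hw, hlt⟩ := fxy_strict (q := q) (m := m) (l := l) (s := s) (t := t) hq hi1 hj1
        obtain ⟨j, rfl⟩ := hsur w hw
        refine map_ctr_lt' _ f1 (i := j) ?_
        rw [hx₀, hy₁]
        exact hlt
      have g2 : fxy x₁ y₀ (ctr v) < x₁ ^ 2 := by
        obtain ⟨w, hw, hlt⟩ := fxy_strict (q := q) (m := m) (l := l) (s := s) (t := t) hq hi hj2
        obtain ⟨j, rfl⟩ := hsur w hw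
        refine map_ctr_lt' _ f2 (i := j) ?_
        rw [hx₁, hy₀]
        exact hlt
      have g3 : fxy x₁ y₁ (ctr v) < x₁ ^ 2 := by
        obtain ⟨w, hw, hlt⟩ := fxy_strict (q := q) (m := m) (l := l) (s := s) (t := t) hq hi hj1
        obtain ⟨j, rfl⟩ := hsur w hw
        refine map_ctr_lt' _ f3 (i := j) ?_
        rw [hx₁, hy₁]
        exact hlt
      -- the points
      have va : v (ia (s * q + i + 1)) = mk (x₀ + x₁) 0 (-(x₀ * x₁)) 0 := by
        rw [hia _ (by omega), pa, ei', ← hx₀, ← hx₁]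
      have va' : v (ia (s * q + i + 1 + 1)) = mk (x₁ + x₂) 0 (-(x₁ * x₂)) 0 := by
        rw [hia _ (by omega), pa, ei', ← hx₁, ← hx₂]
      have vb : v (ib (t * q + (q - 2 - i) + 1)) = mk 0 (y₀ + y₁) (-(y₀ * y₁)) 1 := by
        rw [hib _ (by omega), pb, ej', ej, ← hy₀, ← hy₁]
      have vb' : v (ib (t * q + (q - 2 - i) + 1 + 1)) = mk 0 (y₁ + y₂) (-(y₁ * y₂)) 1 := by
        rw [hib _ (by omega), pb, ej', ← hy₁, ← hy₂]
      obtain ⟨k, hk⟩ := hsur _ (TPH.Low.mem_VV.2 (Or.inr (Or.inr ⟨s, t, hs, ht, rfl⟩)))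
      have vk : v k = mk (3 * (s : ℝ)) (3 * (t : ℝ))
          ((1 - (3 * (s : ℝ)) ^ 2 - (3 * (t : ℝ)) ^ 2) / 2) (1 / 2) := by
        rw [hk, pc]
        congr 1
        dsimp only
        ring
      have ex₀ : x₀ - 3 * (s : ℝ) = av q i := by rw [hx₀, nd_block s hi1]; ring
      have ex₁ : x₁ - 3 * (s : ℝ) = av q (i + 1) := by rw [hx₁, nd_block s hi]; ring
      have ey₀ : y₀ - 3 * (t : ℝ) = av q (q - 1 - (i + 1)) := by rw [hy₀, nd_block t hj2]; ring
      have ey₁ : y₁ - 3 * (t : ℝ) = av q (q - 1 - i) := by rw [hy₁, nd_block t hj1]; ring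
      have z1 : fxy x₀ y₁ (v (ia (s * q + i + 1))) = x₀ ^ 2 := by
        rw [va, fxy, fn_mk]; ring
      have z2 : fxy x₁ y₀ (v (ia (s * q + i + 1))) = x₁ ^ 2 := by
        rw [va, fxy, fn_mk]; ring
      have z3 : fxy x₁ y₁ (v (ia (s * q + i + 1))) = x₁ ^ 2 := by
        rw [va, fxy, fn_mk]; ring
      have w1 : fxy x₀ y₁ (v (ib (t * q + (q - 2 - i) + 1))) = x₀ ^ 2 := by
        rw [vb, fxy, fn_mk]; ring
      have w2 : fxy x₁ y₀ (v (ib (t * q + (q - 2 - i) + 1))) = x₁ ^ 2 := by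
        rw [vb, fxy, fn_mk]; ring
      have w3 : fxy x₁ y₁ (v (ib (t * q + (q - 2 - i) + 1))) = x₁ ^ 2 := by
        rw [vb, fxy, fn_mk]; ring
      refine triangle (p := ![pp v x₀ y₁, pp v x₁ y₀, pp v x₁ y₁]) (pp_li lx ly g1 g2 g3) ?_ ?_
      · intro a
        fin_cases a
        · exact pp_mem f1 g1 z1 w1
        · exact pp_mem f2 g2 z2 w2
        · exact pp_mem f3 g3 z3 w3
      · intro x hx
        exact in_triangle (S := 3 * (s : ℝ)) (T := 3 * (t : ℝ)) lx lx2 ly ly2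
          (by rw [ex₀, ey₁]; exact s1) (by rw [ex₁, ey₀]; exact s2) (by rw [ex₁, ey₁]; exact s3)
          g1 g2 g3 va va' vb vb' vk hx
    -- the injection
    obtain ⟨I, hI⟩ : ∃ I : Finset (ℕ × ℕ × ℕ),
        I = Finset.range q ×ˢ Finset.range q ×ˢ Finset.range (q - 1) := ⟨_, rfl⟩
    have hIc : I.card = q * q * (q - 1) := by
      rw [hI, Finset.card_product, Finset.card_product, Finset.card_range, Finset.card_range,
        mul_assoc]
    obtain ⟨φ, hφ⟩ : ∃ φ : ℕ × ℕ × ℕ → Fin n × Fin n, φ = fun z =>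
        (min (ia (z.1 * q + z.2.2 + 1)) (ib (z.2.1 * q + (q - 2 - z.2.2) + 1)),
          max (ia (z.1 * q + z.2.2 + 1)) (ib (z.2.1 * q + (q - 2 - z.2.2) + 1))) := ⟨_, rfl⟩
    have hIm : ∀ z ∈ I, z.1 < q ∧ z.2.1 < q ∧ z.2.2 + 1 < q := by
      intro z hz
      rw [hI, Finset.mem_product, Finset.mem_product, Finset.mem_range, Finset.mem_range,
        Finset.mem_range] at hz
      exact ⟨hz.1, hz.2.1, by omega⟩
    have hka : ∀ z ∈ I, z.1 * q + z.2.2 + 1 < m := by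
      intro z hz
      obtain ⟨h1, h2, h3⟩ := hIm z hz
      have : (z.1 + 1) * q ≤ q * q := Nat.mul_le_mul_right q h1
      nlinarith
    have hkb : ∀ z ∈ I, z.2.1 * q + (q - 2 - z.2.2) + 1 < l := by
      intro z hz
      obtain ⟨h1, h2, h3⟩ := hIm z hz
      have h4 : (z.2.1 + 1) * q ≤ q * q := Nat.mul_le_mul_right q h2
      have h5 : (z.2.1 + 1) * q = z.2.1 * q + q := by ring
      omega
    have hne : ∀ k k', k < m → k' < l → ia k ≠ ib k' := by
      intro k k' hk hk' h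
      have h1 := hia k hk
      rw [h, hib k' hk'] at h1
      exact pa_ne_pb _ _ _ h1.symm
    have hmaps : ∀ z ∈ I, φ z ∈ NonQuads (fun i => v i - ctr v) (fun _ => 1) := by
      intro z hz
      obtain ⟨h1, h2, h3⟩ := hIm z hz
      obtain ⟨h4, h5⟩ := key z.1 z.2.1 z.2.2 h1 h2 h3
      have h6 := hne _ _ (hka z hz) (hkb z hz)
      rw [hφ]
      rcases lt_or_gt_of_ne h6 with h | h
      · simp only [min_eq_left h.le, max_eq_right h.le]
        exact ⟨h, h4, fun h7 => absurd (h7.symm.le.trans h5) (by norm_num)⟩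
      · simp only [min_eq_right h.le, max_eq_left h.le]
        rw [Set.inter_comm] at h4 h5
        exact ⟨h, h4, fun h7 => absurd (h7.symm.le.trans h5) (by norm_num)⟩
    have hφinj : Set.InjOn φ (I : Set (ℕ × ℕ × ℕ)) := by
      intro z hz z' hz' he
      rw [Finset.mem_coe] at hz hz'
      obtain ⟨h1, h2, h3⟩ := hIm z hz
      obtain ⟨h1', h2', h3'⟩ := hIm z' hz'
      have a1 := hia _ (hka z hz)
      have a2 := hib _ (hkb z hz)
      have a1' := hia _ (hka z' hz')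
      have a2' := hib _ (hkb z' hz')
      have n1 := hne _ _ (hka z hz) (hkb z' hz')
      have n2 := hne _ _ (hka z' hz') (hkb z hz)
      have hee : ia (z.1 * q + z.2.2 + 1) = ia (z'.1 * q + z'.2.2 + 1) ∧
          ib (z.2.1 * q + (q - 2 - z.2.2) + 1) = ib (z'.2.1 * q + (q - 2 - z'.2.2) + 1) := by
        rw [hφ] at he
        simp only [Prod.mk.injEq] at he
        obtain ⟨he1, he2⟩ := he
        rcases le_total (ia (z.1 * q + z.2.2 + 1)) (ib (z.2.1 * q + (q - 2 - z.2.2) + 1))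
          with h4 | h4 <;>
        rcases le_total (ia (z'.1 * q + z'.2.2 + 1)) (ib (z'.2.1 * q + (q - 2 - z'.2.2) + 1))
          with h5 | h5
        · rw [min_eq_left h4, min_eq_left h5] at he1
          rw [max_eq_right h4, max_eq_right h5] at he2
          exact ⟨he1, he2⟩
        · rw [min_eq_left h4, min_eq_right h5] at he1
          exact absurd he1 n1
        · rw [max_eq_left h4, max_eq_right h5] at he2
          exact absurd he2 n1
        · rw [min_eq_right h4, min_eq_right h5] at he1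
          rw [max_eq_left h4, max_eq_left h5] at he2
          exact ⟨he2, he1⟩
      rw [hee.1, a1'] at a1
      rw [hee.2, a2'] at a2
      have k1 := pa_inj hq0 a1
      have k2 := pb_inj hq0 a2
      have m1 : z.1 = z'.1 ∧ z.2.2 = z'.2.2 := by
        have e1 : (z.1 * q + z.2.2) / q = z.1 := by
          rw [mul_comm, Nat.mul_add_div hq0, Nat.div_eq_of_lt (by omega), add_zero]
        have e2 : (z'.1 * q + z'.2.2) / q = z'.1 := by
          rw [mul_comm, Nat.mul_add_div hq0, Nat.div_eq_of_lt (by omega), add_zero]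
        have e3 : z.1 * q + z.2.2 = z'.1 * q + z'.2.2 := by omega
        have e4 : z.1 = z'.1 := by rw [← e1, ← e2, e3]
        rw [e4] at e3
        exact ⟨e4, by omega⟩
      have m2 : z.2.1 = z'.2.1 := by
        rw [m1.2] at k2
        have e3 : z.2.1 * q = z'.2.1 * q := by omega
        exact Nat.eq_of_mul_eq_mul_right hq0 e3
      exact Prod.ext m1.1 (Prod.ext m2 m1.2)
    have hfin : (NonQuads (fun i => v i - ctr v) (fun _ => 1)).Finite := Set.toFinite _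
    rw [← hIc, ← Set.ncard_coe_finset]
    exact Set.ncard_le_ncard_of_injOn φ (fun z hz => hmaps z hz) hφinj hfin

/-- **The example.** -/
theorem lower (n : ℕ) (hn : 14 ≤ n) : ∃ (u : Fin n → E4) (b : Fin n → ℝ) (p₀ d : E4)
      (s : Fin 3 → ℝ) (c : Fin n → Fin 3), IsPoly4 u b ∧ (∀ i, ⟪u i, p₀⟫_ℝ < b i) ∧ d ≠ 0 ∧
      (∀ i, ⟪u i, d⟫_ℝ = s (c i) * (b i - ⟪u i, p₀⟫_ℝ)) ∧
      (n : ℝ) ^ (3 / 2 : ℝ) / 40 ≤ ((NonQuads u b).ncard : ℝ) := by
  obtain ⟨q, hq1, hq2⟩ : ∃ q, q * q ≤ (n - 2) / 3 ∧ (n - 2) / 3 < (q + 1) * (q + 1) :=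
    ⟨Nat.sqrt ((n - 2) / 3), Nat.sqrt_le _, Nat.lt_succ_sqrt _⟩
  have h4 : 4 ≤ (n - 2) / 3 := by omega
  have hq : 2 ≤ q := by
    by_contra hlt
    have h1 : q + 1 ≤ 2 := by omega
    have h2 : (q + 1) * (q + 1) ≤ 2 * 2 := Nat.mul_le_mul h1 h1
    omega
  have h3 : 3 * (q * q) + 2 ≤ n := by omega
  have h5 : n ≤ 3 * ((q + 1) * (q + 1)) + 1 := by omega
  obtain ⟨l, hl⟩ : ∃ l, l = n - (q * q + 1) - q * q := ⟨_, rfl⟩
  have hsum : q * q + 1 + (l + q * q) = n := by omega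
  obtain ⟨u, b, p₀, d, s, c, hP, h₀, hd, hcl, hN⟩ := exm (q := q) (m := q * q + 1) (l := l) hq
    (by omega) (by omega) hsum
  refine ⟨u, b, p₀, d, s, c, hP, h₀, hd, hcl, ?_⟩
  have h7 : ((q * q * (q - 1) : ℕ) : ℝ) ≤ ((NonQuads u b).ncard : ℝ) := by exact_mod_cast hN
  rw [Nat.cast_mul, Nat.cast_mul, Nat.cast_sub (by omega), Nat.cast_one] at h7
  have h8 : (n : ℝ) ≤ 3 * ((q + 1) * (q + 1)) + 1 := by exact_mod_cast h5
  have hq2' : (2 : ℝ) ≤ q := by exact_mod_cast hq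
  have h9 : (n : ℝ) ≤ 7 * q ^ 2 := by nlinarith
  have hn0 : (0 : ℝ) ≤ n := Nat.cast_nonneg n
  have h10 : (n : ℝ) ^ (3 / 2 : ℝ) ≤ (7 * (q : ℝ) ^ 2) ^ (3 / 2 : ℝ) :=
    Real.rpow_le_rpow hn0 h9 (by norm_num)
  have h11 : ((7 * (q : ℝ) ^ 2) ^ (3 / 2 : ℝ)) ^ 2 = (7 * (q : ℝ) ^ 2) ^ 3 := by
    rw [← Real.rpow_natCast, ← Real.rpow_mul (by positivity), ← Real.rpow_natCast]
    norm_num
  have h12 : (7 * (q : ℝ) ^ 2) ^ (3 / 2 : ℝ) ≤ 20 * (q * (q * q)) := by
    apply le_of_sq_le_sq _ (by positivity)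
    rw [h11]
    have : (0 : ℝ) ≤ q ^ 6 := by positivity
    nlinarith
  have h13 : (q : ℝ) * (q * q) ≤ 2 * (q * q * (q - 1)) := by
    have : 0 ≤ (q : ℝ) * q := by positivity
    nlinarith
  linarith

end TCC
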