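import Pool.Agent.TCC.Rays
import Pool.Agent.TPH.Closed

/-!
# Three classes of facets with collinear apexes: the count
-/

set_option autoImplicit false

namespace TCC

open TPH TPH.Tr

variable {V : Finset (E × ℝ)} {ι : Type*} {G : Finset ι} {w : ι → E} {s : ι → ℝ}

/-- The functional `(w',s')` exposes exactly the two points `x`, `y`. -/
structure Exp2 (V : Finset (E × ℝ)) (x y : E × ℝ) (w' : E) (s' : ℝ) : Prop where
  hx : x ∈ V
  hy : y ∈ V
  ne : x ≠ y
  le : ∀ v ∈ V, val w' s' v ≤ 1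
  iff : ∀ v ∈ V, val w' s' v = 1 ↔ v = x ∨ v = y

open Classical in
/-- A bad pair: exposed by a functional, and not exactly four vertices. -/
def IsBad (V : Finset (E × ℝ)) (G : Finset ι) (w : ι → E) (s : ι → ℝ) (p : (E × ℝ) × (E × ℝ)) :
    Prop :=
  (∃ w' s', Exp2 V p.1 p.2 w' s') ∧
    (G.filter (fun g => val (w g) (s g) p.1 = 1 ∧ val (w g) (s g) p.2 = 1)).card ≠ 4

theorem mem_TAC {B : Finset E} {a c t : E} :
    t ∈ TAC B a c ↔ ∃ b ∈ B, (2 : ℝ) • c - a - b = t := by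
  rw [TAC]
  exact @Finset.mem_image E E (Classical.decEq E) _ _ _

theorem mem_TAB {C : Finset E} {a b t : E} :
    t ∈ TAB C a b ↔ ∃ c ∈ C, a + b - (2 : ℝ) • c = t := by
  rw [TAB]
  exact @Finset.mem_image E E (Classical.decEq E) _ _ _

theorem Exp2.symm {x y : E × ℝ} {w' : E} {s' : ℝ} (h : Exp2 V x y w' s') : Exp2 V y x w' s' :=
  ⟨h.hy, h.hx, h.ne.symm, h.le, fun v hv => (h.iff v hv).trans or_comm⟩

theorem IsBad.swap {p : (E × ℝ) × (E × ℝ)} (h : IsBad V G w s p) : IsBad V G w s p.swap := by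
  obtain ⟨⟨w', s', h1⟩, h2⟩ := h
  refine ⟨⟨w', s', h1.symm⟩, ?_⟩
  intro h3
  apply h2
  rw [← h3]
  congr 1
  ext g
  rw [Finset.mem_filter, Finset.mem_filter]
  exact and_congr_right fun _ => and_comm

/-- The maximisers if only one of the points is in the layer. -/
theorem Exp2.Mx_one {x y : E × ℝ} {w' : E} {s' : ℝ} (h : Exp2 V x y w' s') {t k : ℝ} (hk : 0 < k)
    (hx : x.2 = t) (hy : y.2 ≠ t) : Mx (img V t k) w' = {k • x.1} := by
  classical
  have hz : zer V t w' s' 1 = {x} := by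
    ext v
    rw [mem_zer, Finset.mem_singleton]
    constructor
    · rintro ⟨h1, h2, h3⟩
      rcases (h.iff v h1).1 h3 with rfl | rfl
      · rfl
      · exact absurd h2 hy
    · rintro rfl
      exact ⟨h.hx, hx, (h.iff v h.hx).2 (Or.inl rfl)⟩
  rw [Mx_img hk h.le (by rw [hz]; exact ⟨x, by simp⟩), hz, Finset.image_singleton]

/-- The maximisers if both points are in the layer. -/
theorem Exp2.Mx_two {x y : E × ℝ} {w' : E} {s' : ℝ} (h : Exp2 V x y w' s') {t k : ℝ} (hk : 0 < k)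
    (hx : x.2 = t) (hy : y.2 = t) : Mx (img V t k) w' = {k • x.1, k • y.1} := by
  classical
  have hz : zer V t w' s' 1 = {x, y} := by
    ext v
    rw [mem_zer, Finset.mem_insert, Finset.mem_singleton]
    constructor
    · rintro ⟨h1, h2, h3⟩
      exact (h.iff v h1).1 h3
    · rintro (rfl | rfl)
      · exact ⟨h.hx, hx, (h.iff v h.hx).2 (Or.inl rfl)⟩
      · exact ⟨h.hy, hy, (h.iff v h.hy).2 (Or.inr rfl)⟩
  rw [Mx_img hk h.le (by rw [hz]; exact ⟨x, by simp⟩), hz, Finset.image_insert,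
    Finset.image_singleton]

/-- Bad pairs in one layer. -/
theorem same_le (hEL : StmtEdgeLin)
    (hexp : ∀ v ∈ V, ∃ (u : E) (s : ℝ), ∀ v' ∈ V, v' ≠ v → val u s v' < val u s v) {t k : ℝ}
    (hk : 0 < k) (S : Finset ((E × ℝ) × (E × ℝ)))
    (hS : ∀ p ∈ S, IsBad V G w s p ∧ p.1.2 = t ∧ p.2.2 = t) : S.card ≤ 24 * (lay V t).card := by
  classical
  have hEd : (S.image (fun p => ({k • p.1.1, k • p.2.1} : Finset E))) ⊆ Ed (img V t k) := by
    intro e he
    obtain ⟨p, hp, rfl⟩ := Finset.mem_image.1 he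
    obtain ⟨⟨⟨w', s', h1⟩, -⟩, h2, h3⟩ := hS p hp
    rw [mem_Ed]
    refine ⟨?_, w', h1.Mx_two hk h2 h3⟩
    apply Finset.card_pair
    intro h4
    exact h1.ne (injOn (V := V) (t := t) hk (mem_lay.2 ⟨h1.hx, h2⟩) (mem_lay.2 ⟨h1.hy, h3⟩) h4)
  have hfib : ∀ e ∈ S.image (fun p => ({k • p.1.1, k • p.2.1} : Finset E)),
      (S.filter (fun p => ({k • p.1.1, k • p.2.1} : Finset E) = e)).card ≤ 2 := by
    intro e he
    obtain ⟨p, hp, rfl⟩ := Finset.mem_image.1 he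
    obtain ⟨⟨⟨w', s', h1⟩, -⟩, h2, h3⟩ := hS p hp
    have hsub : S.filter (fun p' => ({k • p'.1.1, k • p'.2.1} : Finset E) =
        {k • p.1.1, k • p.2.1}) ⊆ {p, p.swap} := by
      intro p' hp'
      rw [Finset.mem_filter] at hp'
      obtain ⟨hp', he⟩ := hp'
      obtain ⟨⟨⟨w'', s'', h1'⟩, -⟩, h2', h3'⟩ := hS p' hp'
      have l1 := mem_lay.2 ⟨h1.hx, h2⟩
      have l2 := mem_lay.2 ⟨h1.hy, h3⟩
      have l1' := mem_lay.2 ⟨h1'.hx, h2'⟩
      have l2' := mem_lay.2 ⟨h1'.hy, h3'⟩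
      have key : ∀ x y : E × ℝ, x ∈ lay V t → y ∈ lay V t → k • x.1 = k • y.1 → x = y :=
        fun x y hx hy h => injOn (V := V) (t := t) hk hx hy h
      have e1 : k • p'.1.1 ∈ ({k • p.1.1, k • p.2.1} : Finset E) := by rw [← he]; simp
      have e2 : k • p'.2.1 ∈ ({k • p.1.1, k • p.2.1} : Finset E) := by rw [← he]; simp
      rw [Finset.mem_insert, Finset.mem_singleton] at e1 e2
      rw [Finset.mem_insert, Finset.mem_singleton]
      rcases e1 with e1 | e1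
      · have f1 := key _ _ l1' l1 e1
        rcases e2 with e2 | e2
        · have f2 := key _ _ l2' l1 e2
          exact absurd (f1.trans f2.symm) h1'.ne
        · have f2 := key _ _ l2' l2 e2
          exact Or.inl (Prod.ext f1 f2)
      · have f1 := key _ _ l1' l2 e1
        rcases e2 with e2 | e2
        · have f2 := key _ _ l2' l1 e2
          exact Or.inr (Prod.ext f1 f2)
        · have f2 := key _ _ l2' l2 e2
          exact absurd (f1.trans f2.symm) h1'.ne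
    exact (Finset.card_le_card hsub).trans Finset.card_le_two
  have h1 := Finset.card_le_mul_card_image S 2 hfib
  have h2 := Finset.card_le_card hEd
  have h3 := (hEL (img V t k) (convPos_img hk hexp)).2.2
  rw [card_img hk] at h3
  omega

/-- The map to pairs of projected points is injective on pairs from two layers. -/
theorem cross_card {tx ty kx ky : ℝ} (hkx : 0 < kx) (hky : 0 < ky)
    (S : Finset ((E × ℝ) × (E × ℝ))) (hS : ∀ p ∈ S, p.1 ∈ lay V tx ∧ p.2 ∈ lay V ty)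
    (φ : (E × ℝ) × (E × ℝ) → E × E) (hφ : φ = fun p => (kx • p.1.1, ky • p.2.1)) :
    ∃ P : Finset (E × E), P.card = S.card ∧ ∀ a ∈ P, ∃ p ∈ S, a = φ p := by
  classical
  refine ⟨S.image φ, Finset.card_image_of_injOn ?_, ?_⟩
  · intro p hp p' hp' h
    rw [hφ, Prod.ext_iff] at h
    exact Prod.ext (injOn (V := V) (t := tx) hkx (hS p hp).1 (hS p' hp').1 h.1)
      (injOn (V := V) (t := ty) hky (hS p hp).2 (hS p' hp').2 h.2)
  · intro a ha
    obtain ⟨p, hp, rfl⟩ := Finset.mem_image.1 ha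
    exact ⟨p, hp, rfl⟩

/-- Bad pairs of an outer layer and the middle layer. -/
theorem ac_le {K : ℕ} (hK : ∀ (A B C : Finset E) (P : Finset (E × E)), ConvPos A →
    ConvPos B → ConvPos C → (∀ c ∈ C, ∃ r, InR A B c r) →
    (∀ p ∈ P, (∃ w, Mx A w = {p.1} ∧ Mx C w = {p.2} ∧ InR A B p.2 w) ∧
      ¬ Rays4 (FG A C (TAC B p.1 p.2) p.1 p.2)) →
    P.card ^ 2 ≤ K * (A.card + B.card + C.card) ^ 3) (D : PD V G w s) {t₁ t₂ t₃ α β : ℝ}
    (hα : 0 < α) (hβ : 0 < β) (hαβ : α + β = 1) (ht : α * t₁ + β * t₃ = t₂) (h12 : t₁ ≠ t₂)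
    (h13 : t₁ ≠ t₃) (h23 : t₂ ≠ t₃) (hl : ∀ v ∈ V, v.2 = t₁ ∨ v.2 = t₂ ∨ v.2 = t₃)
    (S : Finset ((E × ℝ) × (E × ℝ)))
    (hS : ∀ p ∈ S, IsBad V G w s p ∧ p.1.2 = t₁ ∧ p.2.2 = t₂) :
    S.card ^ 2 ≤ K * V.card ^ 3 := by
  classical
  have k1 : 0 < 2 * α := by linarith
  have k3 : 0 < 2 * β := by linarith
  obtain ⟨P, hP1, hP2⟩ := cross_card (V := V) (tx := t₁) (ty := t₂) k1 one_pos S (by
    intro p hp
    obtain ⟨⟨⟨w', s', h1⟩, -⟩, h2, h3⟩ := hS p hp
    exact ⟨mem_lay.2 ⟨h1.hx, h2⟩, mem_lay.2 ⟨h1.hy, h3⟩⟩) _ rfl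
  have h0 := hK (img V t₁ (2 * α)) (img V t₃ (2 * β)) (img V t₂ 1) P (convPos_img k1 D.exp)
    (convPos_img k3 D.exp) (convPos_img one_pos D.exp)
    (exists_inR hα hβ hαβ ht h12 h23.symm D.exp) (by
    intro a ha
    obtain ⟨p, hp, rfl⟩ := hP2 a ha
    obtain ⟨⟨⟨w', s', h1⟩, h4⟩, h2, h3⟩ := hS p hp
    have lx := mem_lay.2 ⟨h1.hx, h2⟩
    have ly := mem_lay.2 ⟨h1.hy, h3⟩
    have hb : β = 1 - α := by linarith
    refine ⟨⟨w', h1.Mx_one k1 h2 (by rw [h3]; exact h12.symm),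
      h1.symm.Mx_one one_pos h3 (by rw [h2]; exact h12), ?_⟩, ?_⟩
    · intro a ha b hb'
      obtain ⟨x', hx', rfl⟩ := mem_img.1 ha
      obtain ⟨z, hz, rfl⟩ := mem_img.1 hb'
      have hx'' := mem_lay.1 hx'
      have hz'' := mem_lay.1 hz
      have e1 := h1.le x' hx''.1
      have e2 : val w' s' z < 1 := by
        refine lt_of_le_of_ne (h1.le z hz''.1) ?_
        intro he
        rcases (h1.iff z hz''.1).1 he with rfl | rfl
        · exact h13 (h2.symm.trans hz''.2)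
        · exact h23 (h3.symm.trans hz''.2)
      have e3 := (h1.iff p.2 h1.hy).2 (Or.inr rfl)
      rw [val, hx''.2] at e1
      rw [val, hz''.2] at e2
      rw [val, h3] at e3
      show ip ((2 * α) • x'.1) w' + ip ((2 * β) • z.1) w' < 2 * ip ((1 : ℝ) • p.2.1) w'
      rw [ip_smul_left, ip_smul_left, ip_smul_left, one_mul]
      have e4 := mul_le_mul_of_nonneg_left e1 hα.le
      have e5 := mul_lt_mul_of_pos_left e2 hβ
      have e6 : ip p.2.1 w' = 1 - s' * (α * t₁ + β * t₃) := by rw [ht]; linarith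
      rw [e6]
      nlinarith
    · intro h5
      apply h4
      refine card_four D (x := p.1) (y := p.2) (tx := t₁) (ty := t₂) (tz := t₃) (kx := 2 * α)
        (ky := 1) (lx := -(2 * α)) (ly := 2) (lz := -(2 * β))
        (T := TAC (img V t₃ (2 * β)) ((2 * α) • p.1.1) ((1 : ℝ) • p.2.1)) ?_ h5
      have hcv : ∀ z : E × ℝ, (2 : ℝ) • ((1 : ℝ) • p.2.1) - (2 * α) • p.1.1 - (2 * β) • z.1 =
          cv (-(2 * α)) 2 (-(2 * β)) p.1 p.2 z := by
        intro z
        rw [cv]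
        module
      refine ⟨h12, k1, one_pos, by linarith, by rw [hb]; ring, by rw [← ht]; ring, lx, ly,
        fun v hv => hl v hv, ?_, ?_⟩
      · intro z hz
        rw [mem_TAC]
        exact ⟨(2 * β) • z.1, mem_img.2 ⟨z, hz, rfl⟩, hcv z⟩
      · intro t' ht'
        rw [mem_TAC] at ht'
        obtain ⟨b, hb', rfl⟩ := ht'
        obtain ⟨z, hz, rfl⟩ := mem_img.1 hb'
        exact ⟨z, hz, hcv z⟩)
  rw [hP1, card_img k1, card_img k3, card_img one_pos] at h0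
  have h1 := card_lay h12 h13 h23 hl
  have h2 : (lay V t₁).card + (lay V t₃).card + (lay V t₂).card = V.card := by omega
  rw [h2] at h0
  exact h0

/-- Bad pairs of the two outer layers. -/
theorem ab_le {K : ℕ} (hK : ∀ (A B C : Finset E) (P : Finset (E × E)), ConvPos A →
    ConvPos B → ConvPos C → (∀ c ∈ C, ∃ r, InR A B c r) →
    (∀ p ∈ P, (∃ w, Mx A w = {p.1} ∧ Mx B w = {p.2} ∧
      ∀ c ∈ C, 2 * ip c w < ip p.1 w + ip p.2 w) ∧
      ¬ Rays4 (FG A B (TAB C p.1 p.2) p.1 p.2)) →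
    P.card ^ 2 ≤ K * (A.card + B.card + C.card) ^ 3) (D : PD V G w s) {t₁ t₂ t₃ α β : ℝ}
    (hα : 0 < α) (hβ : 0 < β) (hαβ : α + β = 1) (ht : α * t₁ + β * t₃ = t₂) (h12 : t₁ ≠ t₂)
    (h13 : t₁ ≠ t₃) (h23 : t₂ ≠ t₃) (hl : ∀ v ∈ V, v.2 = t₁ ∨ v.2 = t₂ ∨ v.2 = t₃)
    (S : Finset ((E × ℝ) × (E × ℝ)))
    (hS : ∀ p ∈ S, IsBad V G w s p ∧ p.1.2 = t₁ ∧ p.2.2 = t₃) :
    S.card ^ 2 ≤ K * V.card ^ 3 := by
  classical
  have k1 : 0 < 2 * α := by linarith
  have k3 : 0 < 2 * β := by linarith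
  obtain ⟨P, hP1, hP2⟩ := cross_card (V := V) (tx := t₁) (ty := t₃) k1 k3 S (by
    intro p hp
    obtain ⟨⟨⟨w', s', h1⟩, -⟩, h2, h3⟩ := hS p hp
    exact ⟨mem_lay.2 ⟨h1.hx, h2⟩, mem_lay.2 ⟨h1.hy, h3⟩⟩) _ rfl
  have h0 := hK (img V t₁ (2 * α)) (img V t₃ (2 * β)) (img V t₂ 1) P (convPos_img k1 D.exp)
    (convPos_img k3 D.exp) (convPos_img one_pos D.exp)
    (exists_inR hα hβ hαβ ht h12 h23.symm D.exp) (by
    intro a ha
    obtain ⟨p, hp, rfl⟩ := hP2 a ha
    obtain ⟨⟨⟨w', s', h1⟩, h4⟩, h2, h3⟩ := hS p hp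
    have lx := mem_lay.2 ⟨h1.hx, h2⟩
    have ly := mem_lay.2 ⟨h1.hy, h3⟩
    have hb : β = 1 - α := by linarith
    refine ⟨⟨w', h1.Mx_one k1 h2 (by rw [h3]; exact h13.symm),
      h1.symm.Mx_one k3 h3 (by rw [h2]; exact h13), ?_⟩, ?_⟩
    · intro c hc
      obtain ⟨z, hz, rfl⟩ := mem_img.1 hc
      have hz'' := mem_lay.1 hz
      have e2 : val w' s' z < 1 := by
        refine lt_of_le_of_ne (h1.le z hz''.1) ?_
        intro he
        rcases (h1.iff z hz''.1).1 he with rfl | rfl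
        · exact h12 (h2.symm.trans hz''.2)
        · exact h23 (hz''.2.symm.trans h3)
      have e1 := (h1.iff p.1 h1.hx).2 (Or.inl rfl)
      have e3 := (h1.iff p.2 h1.hy).2 (Or.inr rfl)
      rw [val, h2] at e1
      rw [val, hz''.2] at e2
      rw [val, h3] at e3
      show 2 * ip ((1 : ℝ) • z.1) w' < ip ((2 * α) • p.1.1) w' + ip ((2 * β) • p.2.1) w'
      rw [ip_smul_left, ip_smul_left, ip_smul_left, one_mul]
      have e4 : ip p.1.1 w' = 1 - s' * t₁ := by linarith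
      have e5 : ip p.2.1 w' = 1 - s' * t₃ := by linarith
      have e6 : ip z.1 w' < 1 - s' * (α * t₁ + β * t₃) := by rw [ht]; linarith
      rw [e4, e5]
      have e7 : 1 - s' * (α * t₁ + β * t₃) = α * (1 - s' * t₁) + β * (1 - s' * t₃) := by
        rw [hb]; ring
      rw [e7] at e6
      linarith
    · intro h5
      apply h4
      refine card_four D (x := p.1) (y := p.2) (tx := t₁) (ty := t₃) (tz := t₂) (kx := 2 * α)
        (ky := 2 * β) (lx := 2 * α) (ly := 2 * β) (lz := -2)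
        (T := TAB (img V t₂ 1) ((2 * α) • p.1.1) ((2 * β) • p.2.1)) ?_ h5
      have hcv : ∀ z : E × ℝ, (2 * α) • p.1.1 + (2 * β) • p.2.1 - (2 : ℝ) • ((1 : ℝ) • z.1) =
          cv (2 * α) (2 * β) (-2) p.1 p.2 z := by
        intro z
        rw [cv]
        module
      refine ⟨h13, k1, k3, by norm_num, by rw [hb]; ring, by rw [← ht]; ring, lx, ly,
        fun v hv => ?_, ?_, ?_⟩
      · rcases hl v hv with h | h | h
        · exact Or.inl h
        · exact Or.inr (Or.inr h)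
        · exact Or.inr (Or.inl h)
      · intro z hz
        rw [mem_TAB]
        exact ⟨(1 : ℝ) • z.1, mem_img.2 ⟨z, hz, rfl⟩, hcv z⟩
      · intro t' ht'
        rw [mem_TAB] at ht'
        obtain ⟨b, hb', rfl⟩ := ht'
        obtain ⟨z, hz, rfl⟩ := mem_img.1 hb'
        exact ⟨z, hz, hcv z⟩)
  rw [hP1, card_img k1, card_img k3, card_img one_pos] at h0
  have h1 := card_lay h12 h13 h23 hl
  have h2 : (lay V t₁).card + (lay V t₃).card + (lay V t₂).card = V.card := by omega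
  rw [h2] at h0
  exact h0

end TCC
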