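import Pool.Agent.TCC.Polar
import Pool.Agent.TCC.Upper
import Pool.Agent.TPH.Low

/-!
# Three classes of facets with collinear apexes: the example
-/

set_option autoImplicit false

namespace TCC

open TPH.Low
open scoped InnerProductSpace

variable {n : ℕ}

theorem inner_mk (v : E4) (a b c d : ℝ) : ⟪v, mk a b c d⟫_ℝ = fn a b c d v := by
  simp [fn, mk, PiLp.inner_apply, Fin.sum_univ_four]

theorem fn_apply (a b c d : ℝ) (v : E4) : fn a b c d v = a * v 0 + b * v 1 + c * v 2 + d * v 3 := by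
  simp [fn]

/-- The vector of the functional `fxy x y`. -/
noncomputable def pv (x y : ℝ) : E4 := mk x y 1 (x ^ 2 - y ^ 2)

theorem inner_pv (v : E4) (x y : ℝ) : ⟪v, pv x y⟫_ℝ = fxy x y v := inner_mk _ _ _ _ _

theorem inner_mk_left (a b c d : ℝ) (x : E4) :
    ⟪mk a b c d, x⟫_ℝ = a * x 0 + b * x 1 + c * x 2 + d * x 3 := by
  rw [real_inner_comm, inner_mk, fn_apply]

theorem map_ctr_lt' {v : Fin n → E4} {τ : ℝ} (f : E4 →L[ℝ] ℝ) (hf : ∀ j, f (v j) ≤ τ)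
    {i : Fin n} (hi : f (v i) < τ) : f (ctr v) < τ := by
  have hn : 0 < n := i.pos
  have h0 : (0 : ℝ) < n := by exact_mod_cast hn
  rw [ctr, map_smul, map_sum, smul_eq_mul, inv_mul_eq_div, div_lt_iff₀ h0]
  have h1 : ∑ j, f (v j) < ∑ _j : Fin n, τ :=
    Finset.sum_lt_sum (fun j _ => hf j) ⟨i, Finset.mem_univ i, hi⟩
  rw [Finset.sum_const, Finset.card_univ, Fintype.card_fin, nsmul_eq_mul, mul_comm] at h1
  exact h1

/-- The point of the polar polytope given by `(x,y)`. -/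
noncomputable def pp (v : Fin n → E4) (x y : ℝ) : E4 := (x ^ 2 - fxy x y (ctr v))⁻¹ • pv x y

theorem pp_mem {v : Fin n → E4} {x y : ℝ} (hle : ∀ j, fxy x y (v j) ≤ x ^ 2)
    (hlt : fxy x y (ctr v) < x ^ 2) {i j : Fin n} (hi : fxy x y (v i) = x ^ 2)
    (hj : fxy x y (v j) = x ^ 2) :
    pp v x y ∈ Facet (fun i => v i - ctr v) (fun _ => 1) i ∩
      Facet (fun i => v i - ctr v) (fun _ => 1) j := by
  have hD : 0 < x ^ 2 - fxy x y (ctr v) := by linarith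
  have hval : ∀ k, ⟪v k - ctr v, pp v x y⟫_ℝ =
      (fxy x y (v k) - fxy x y (ctr v)) / (x ^ 2 - fxy x y (ctr v)) := by
    intro k
    rw [pp, inner_smul_right, inner_pv, map_sub, inv_mul_eq_div]
  have hP : pp v x y ∈ Poly (fun i => v i - ctr v) (fun _ => (1 : ℝ)) := by
    intro k
    show ⟪v k - ctr v, pp v x y⟫_ℝ ≤ 1
    rw [hval, div_le_one hD]
    have := hle k
    linarith
  refine ⟨⟨hP, ?_⟩, hP, ?_⟩
  · show ⟪v i - ctr v, pp v x y⟫_ℝ = 1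
    rw [hval, hi, div_self hD.ne']
  · show ⟪v j - ctr v, pp v x y⟫_ℝ = 1
    rw [hval, hj, div_self hD.ne']

/-- Linear independence of the three points. -/
theorem pp_li {v : Fin n → E4} {x₀ x₁ y₀ y₁ : ℝ} (hx : x₀ < x₁) (hy : y₀ < y₁)
    (h1 : fxy x₀ y₁ (ctr v) < x₀ ^ 2) (h2 : fxy x₁ y₀ (ctr v) < x₁ ^ 2)
    (h3 : fxy x₁ y₁ (ctr v) < x₁ ^ 2) :
    LinearIndependent ℝ ![pp v x₀ y₁, pp v x₁ y₀, pp v x₁ y₁] := by
  rw [Fintype.linearIndependent_iff]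
  intro g hg
  rw [Fin.sum_univ_three] at hg
  have hg' : g 0 • pp v x₀ y₁ + g 1 • pp v x₁ y₀ + g 2 • pp v x₁ y₁ = 0 := hg
  have d1 : (x₀ ^ 2 - fxy x₀ y₁ (ctr v))⁻¹ ≠ 0 := inv_ne_zero (by linarith)
  have d2 : (x₁ ^ 2 - fxy x₁ y₀ (ctr v))⁻¹ ≠ 0 := inv_ne_zero (by linarith)
  have d3 : (x₁ ^ 2 - fxy x₁ y₁ (ctr v))⁻¹ ≠ 0 := inv_ne_zero (by linarith)
  rw [pp, pp, pp] at hg'
  generalize (x₀ ^ 2 - fxy x₀ y₁ (ctr v))⁻¹ = r1 at *
  generalize (x₁ ^ 2 - fxy x₁ y₀ (ctr v))⁻¹ = r2 at *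
  generalize (x₁ ^ 2 - fxy x₁ y₁ (ctr v))⁻¹ = r3 at *
  have c0 := congrFun (congrArg (fun v : E4 => v.ofLp) hg') 0
  have c1 := congrFun (congrArg (fun v : E4 => v.ofLp) hg') 1
  have c2 := congrFun (congrArg (fun v : E4 => v.ofLp) hg') 2
  simp [pv, mk] at c0 c1 c2
  have hx' : x₁ - x₀ ≠ 0 := by linarith
  have hy' : y₁ - y₀ ≠ 0 := by linarith
  have e1 : g 0 * r1 = 0 := by
    have : (g 0 * r1) * (x₁ - x₀) = 0 := by linear_combination x₁ * c2 - c0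
    rcases mul_eq_zero.1 this with h | h
    · exact h
    · exact absurd h hx'
  have e2 : g 1 * r2 = 0 := by
    have : (g 1 * r2) * (y₁ - y₀) = 0 := by linear_combination y₁ * c2 - c1
    rcases mul_eq_zero.1 this with h | h
    · exact h
    · exact absurd h hy'
  have e3 : g 2 * r3 = 0 := by linarith
  have f1 : g 0 = 0 := (mul_eq_zero.1 e1).resolve_right d1
  have f2 : g 1 = 0 := (mul_eq_zero.1 e2).resolve_right d2
  have f3 : g 2 = 0 := (mul_eq_zero.1 e3).resolve_right d3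
  intro m
  fin_cases m
  · exact f1
  · exact f2
  · exact f3

/-- The 2-face is contained in the triangle. -/
theorem in_triangle {v : Fin n → E4} {S T x₀ x₁ x₂ y₀ y₁ y₂ : ℝ} (hx : x₀ < x₁) (hx2 : x₁ < x₂)
    (hy : y₀ < y₁) (hy2 : y₁ < y₂) (hc1 : (x₀ - S) ^ 2 + (y₁ - T) ^ 2 = 1)
    (hc2 : (x₁ - S) ^ 2 + (y₀ - T) ^ 2 = 1) (hc3 : 1 < (x₁ - S) ^ 2 + (y₁ - T) ^ 2)
    (h1 : fxy x₀ y₁ (ctr v) < x₀ ^ 2) (h2 : fxy x₁ y₀ (ctr v) < x₁ ^ 2)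
    (h3 : fxy x₁ y₁ (ctr v) < x₁ ^ 2) {i j i' j' k : Fin n}
    (hi : v i = mk (x₀ + x₁) 0 (-(x₀ * x₁)) 0) (hi' : v i' = mk (x₁ + x₂) 0 (-(x₁ * x₂)) 0)
    (hj : v j = mk 0 (y₀ + y₁) (-(y₀ * y₁)) 1) (hj' : v j' = mk 0 (y₁ + y₂) (-(y₁ * y₂)) 1)
    (hk : v k = mk S T ((1 - S ^ 2 - T ^ 2) / 2) (1 / 2)) {x : E4}
    (hxm : x ∈ Facet (fun i => v i - ctr v) (fun _ => 1) i ∩
      Facet (fun i => v i - ctr v) (fun _ => 1) j) :
    ∃ c : Fin 3 → ℝ, (∀ m, 0 ≤ c m) ∧ ∑ m, c m = 1 ∧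
      x = ∑ m, c m • (![pp v x₀ y₁, pp v x₁ y₀, pp v x₁ y₁] : Fin 3 → E4) m := by
  obtain ⟨τ, hτ⟩ : ∃ τ : ℝ, τ = 1 + ⟪ctr v, x⟫_ℝ := ⟨_, rfl⟩
  have hle : ∀ m, ⟪v m, x⟫_ℝ ≤ τ := by
    intro m
    have h : ⟪v m - ctr v, x⟫_ℝ ≤ 1 := hxm.1.1 m
    rw [inner_sub_left] at h
    linarith
  have ei : ⟪v i, x⟫_ℝ = τ := by
    have h : ⟪v i - ctr v, x⟫_ℝ = 1 := hxm.1.2
    rw [inner_sub_left] at h
    linarith
  have ej : ⟪v j, x⟫_ℝ = τ := by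
    have h : ⟪v j - ctr v, x⟫_ℝ = 1 := hxm.2.2
    rw [inner_sub_left] at h
    linarith
  have li' := hle i'
  have lj' := hle j'
  have lk := hle k
  rw [hi, inner_mk_left] at ei
  rw [hj, inner_mk_left] at ej
  rw [hi', inner_mk_left] at li'
  rw [hj', inner_mk_left] at lj'
  rw [hk, inner_mk_left] at lk
  obtain ⟨X, hX⟩ : ∃ X, X = x 0 := ⟨_, rfl⟩
  obtain ⟨Y, hY⟩ : ∃ Y, Y = x 1 := ⟨_, rfl⟩
  obtain ⟨Z, hZ⟩ : ∃ Z, Z = x 2 := ⟨_, rfl⟩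
  obtain ⟨W, hW⟩ : ∃ W, W = x 3 := ⟨_, rfl⟩
  rw [← hX, ← hY, ← hZ, ← hW] at ei ej li' lj' lk
  have dx : 0 < x₁ - x₀ := by linarith
  have dy : 0 < y₁ - y₀ := by linarith
  obtain ⟨a, ha⟩ : ∃ a, a = (x₁ * Z - X) / (x₁ - x₀) := ⟨_, rfl⟩
  obtain ⟨b, hb⟩ : ∃ b, b = (y₁ * Z - Y) / (y₁ - y₀) := ⟨_, rfl⟩
  obtain ⟨c, hc⟩ : ∃ c, c = Z - a - b := ⟨_, rfl⟩
  have ha' : a * (x₁ - x₀) = x₁ * Z - X := by rw [ha, div_mul_cancel₀ _ dx.ne']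
  have hb' : b * (y₁ - y₀) = y₁ * Z - Y := by rw [hb, div_mul_cancel₀ _ dy.ne']
  have eX : X = a * x₀ + b * x₁ + c * x₁ := by rw [hc]; linear_combination ha'
  have eY : Y = a * y₁ + b * y₀ + c * y₁ := by rw [hc]; linear_combination hb'
  have eZ : Z = a + b + c := by rw [hc]; ring
  have eτ : τ = a * x₀ ^ 2 + b * x₁ ^ 2 + c * x₁ ^ 2 := by
    rw [← ei, eX, eZ]; ring
  have eW : W = a * (x₀ ^ 2 - y₁ ^ 2) + b * (x₁ ^ 2 - y₀ ^ 2) + c * (x₁ ^ 2 - y₁ ^ 2) := by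
    have h : W = τ - ((y₀ + y₁) * Y - (y₀ * y₁) * Z) := by linarith
    rw [h, eτ, eY, eZ]; ring
  have a0 : 0 ≤ a := by
    rw [ha]
    apply div_nonneg _ dx.le
    have h : 0 ≤ (x₂ - x₀) * (x₁ * Z - X) := by
      have e : (x₂ - x₀) * (x₁ * Z - X) = ((x₀ + x₁) * X + 0 * Y + -(x₀ * x₁) * Z + 0 * W) -
        ((x₁ + x₂) * X + 0 * Y + -(x₁ * x₂) * Z + 0 * W) := by ring
      rw [e]
      linarith
    have h' : 0 < x₂ - x₀ := by linarith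
    by_contra hcon
    push Not at hcon
    have := mul_neg_of_pos_of_neg h' hcon
    linarith
  have b0 : 0 ≤ b := by
    rw [hb]
    apply div_nonneg _ dy.le
    have h : 0 ≤ (y₂ - y₀) * (y₁ * Z - Y) := by
      have e : (y₂ - y₀) * (y₁ * Z - Y) = (0 * X + (y₀ + y₁) * Y + -(y₀ * y₁) * Z + 1 * W) -
        (0 * X + (y₁ + y₂) * Y + -(y₁ * y₂) * Z + 1 * W) := by ring
      rw [e]
      linarith
    have h' : 0 < y₂ - y₀ := by linarith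
    by_contra hcon
    push Not at hcon
    have := mul_neg_of_pos_of_neg h' hcon
    linarith
  have c0 : 0 ≤ c := by
    have h : S * X + T * Y + (1 - S ^ 2 - T ^ 2) / 2 * Z + 1 / 2 * W =
        τ - c * (((x₁ - S) ^ 2 + (y₁ - T) ^ 2 - 1) / 2) := by
      rw [eX, eY, eZ, eW, eτ]
      linear_combination (-(a / 2)) * hc1 - (b / 2) * hc2
    rw [h] at lk
    have h' : 0 < ((x₁ - S) ^ 2 + (y₁ - T) ^ 2 - 1) / 2 := by linarith
    by_contra hcon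
    push Not at hcon
    have := mul_neg_of_neg_of_pos hcon h'
    linarith
  have ex : x = a • pv x₀ y₁ + b • pv x₁ y₀ + c • pv x₁ y₁ := by
    ext m
    fin_cases m
    · simp only [pv, mk]
      simp
      rw [← hX, eX]
    · simp only [pv, mk]
      simp
      rw [← hY, eY]
    · simp only [pv, mk]
      simp
      rw [← hZ, eZ]
    · simp only [pv, mk]
      simp
      rw [← hW, eW]
  have D1 : 0 < x₀ ^ 2 - fxy x₀ y₁ (ctr v) := by linarith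
  have D2 : 0 < x₁ ^ 2 - fxy x₁ y₀ (ctr v) := by linarith
  have D3 : 0 < x₁ ^ 2 - fxy x₁ y₁ (ctr v) := by linarith
  refine ⟨![a * (x₀ ^ 2 - fxy x₀ y₁ (ctr v)), b * (x₁ ^ 2 - fxy x₁ y₀ (ctr v)),
    c * (x₁ ^ 2 - fxy x₁ y₁ (ctr v))], ?_, ?_, ?_⟩
  · intro m
    fin_cases m
    · exact mul_nonneg a0 D1.le
    · exact mul_nonneg b0 D2.le
    · exact mul_nonneg c0 D3.le
  · rw [Fin.sum_univ_three]
    show a * (x₀ ^ 2 - fxy x₀ y₁ (ctr v)) + b * (x₁ ^ 2 - fxy x₁ y₀ (ctr v)) +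
      c * (x₁ ^ 2 - fxy x₁ y₁ (ctr v)) = 1
    have h : ⟪ctr v, x⟫_ℝ = a * fxy x₀ y₁ (ctr v) + b * fxy x₁ y₀ (ctr v) +
        c * fxy x₁ y₁ (ctr v) := by
      conv_lhs => rw [ex]
      rw [inner_add_right, inner_add_right, inner_smul_right, inner_smul_right,
        inner_smul_right, inner_pv, inner_pv, inner_pv]
    linarith
  · rw [Fin.sum_univ_three]
    show x = (a * (x₀ ^ 2 - fxy x₀ y₁ (ctr v))) • pp v x₀ y₁ +
      (b * (x₁ ^ 2 - fxy x₁ y₀ (ctr v))) • pp v x₁ y₀ +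
      (c * (x₁ ^ 2 - fxy x₁ y₁ (ctr v))) • pp v x₁ y₁
    rw [pp, pp, pp, smul_smul, smul_smul, smul_smul, mul_assoc, mul_assoc, mul_assoc,
      mul_inv_cancel₀ D1.ne', mul_inv_cancel₀ D2.ne', mul_inv_cancel₀ D3.ne', mul_one, mul_one,
      mul_one]
    exact ex

end TCC
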