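import Pool.Agent.TCC.Prim

/-!
# The polar polytope of a finite set of points, and triangular 2-faces
-/

set_option autoImplicit false

namespace TCC

open scoped InnerProductSpace

variable {n : ℕ}

/-- The centroid. -/
noncomputable def ctr (v : Fin n → E4) : E4 := (n : ℝ)⁻¹ • ∑ i, v i

theorem sum_sub_ctr (v : Fin n → E4) (hn : 0 < n) (y : E4) :
    ∑ i, ⟪v i - ctr v, y⟫_ℝ = 0 := by
  have h0 : (n : ℝ) ≠ 0 := by exact_mod_cast hn.ne'
  have h1 : ∀ i, ⟪v i - ctr v, y⟫_ℝ = ⟪v i, y⟫_ℝ - (n : ℝ)⁻¹ * ∑ j, ⟪v j, y⟫_ℝ := by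
    intro i
    rw [inner_sub_left, ctr, real_inner_smul_left, sum_inner]
  rw [Finset.sum_congr rfl (fun i _ => h1 i), Finset.sum_sub_distrib, Finset.sum_const,
    Finset.card_univ, Fintype.card_fin, nsmul_eq_mul, ← mul_assoc, mul_inv_cancel₀ h0, one_mul,
    sub_self]

theorem map_ctr_lt {v : Fin n → E4} (hn : 2 ≤ n) {i : Fin n} (f : E4 →L[ℝ] ℝ)
    (hf : ∀ j, j ≠ i → f (v j) < f (v i)) : f (ctr v) < f (v i) := by
  have h0 : (0 : ℝ) < n := by exact_mod_cast (by omega : 0 < n)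
  rw [ctr, map_smul, map_sum, smul_eq_mul, inv_mul_eq_div, div_lt_iff₀ h0]
  have h1 : ∑ j, f (v j) < ∑ _j : Fin n, f (v i) := by
    apply Finset.sum_lt_sum
    · intro j _
      by_cases h : j = i
      · rw [h]
      · exact (hf j h).le
    · have : Nontrivial (Fin n) := Fin.nontrivial_iff_two_le.2 hn
      obtain ⟨j, hj⟩ := exists_ne i
      exact ⟨j, Finset.mem_univ j, hf j hj⟩
  rw [Finset.sum_const, Finset.card_univ, Fintype.card_fin, nsmul_eq_mul, mul_comm] at h1
  exact h1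

/-- The polar polytope. -/
theorem polar_poly {v : Fin n → E4} (hn : 2 ≤ n)
    (hexp : ∀ i, ∃ f : E4 →L[ℝ] ℝ, ∀ j, j ≠ i → f (v j) < f (v i))
    (hspan : ∀ y : E4, (∀ i j, ⟪v i, y⟫_ℝ = ⟪v j, y⟫_ℝ) → y = 0) :
    IsPoly4 (fun i => v i - ctr v) (fun _ => 1) := by
  have hn0 : 0 < n := by omega
  refine ⟨?_, ?_⟩
  · let T : E4 →ₗ[ℝ] (Fin n → ℝ) := LinearMap.pi fun i =>
      ((innerSL ℝ (v i - ctr v) : E4 →L[ℝ] ℝ) : E4 →ₗ[ℝ] ℝ)
    have hT : ∀ y i, T y i = ⟪v i - ctr v, y⟫_ℝ := fun y i => rfl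
    have hker : LinearMap.ker T = ⊥ := by
      rw [LinearMap.ker_eq_bot']
      intro y hy
      apply hspan
      intro i j
      have h1 : ⟪v i - ctr v, y⟫_ℝ = 0 := by rw [← hT, hy]; rfl
      have h2 : ⟪v j - ctr v, y⟫_ℝ = 0 := by rw [← hT, hy]; rfl
      rw [inner_sub_left] at h1 h2
      linarith
    obtain ⟨K, -, hK⟩ := LinearMap.exists_antilipschitzWith T hker
    have hb := hK.isBounded_preimage (s := Set.Icc (fun _ => -(n : ℝ)) (fun _ => (n : ℝ)))
      (Metric.isBounded_Icc _ _)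
    apply hb.subset
    intro p hp
    have hle : ∀ i, ⟪v i - ctr v, p⟫_ℝ ≤ 1 := hp
    have hge : ∀ i, -(n : ℝ) ≤ ⟪v i - ctr v, p⟫_ℝ := by
      intro i
      have h1 := sum_sub_ctr v hn0 p
      rw [← Finset.add_sum_erase _ _ (Finset.mem_univ i)] at h1
      have h2 : ∑ j ∈ Finset.univ.erase i, ⟪v j - ctr v, p⟫_ℝ ≤
          ∑ _j ∈ Finset.univ.erase i, (1 : ℝ) := Finset.sum_le_sum fun j _ => hle j
      rw [Finset.sum_const, Finset.card_erase_of_mem (Finset.mem_univ i), Finset.card_univ,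
        Fintype.card_fin, nsmul_eq_mul, mul_one, Nat.cast_sub (by omega), Nat.cast_one] at h2
      linarith
    rw [Set.mem_preimage, Set.mem_Icc]
    have hn1 : (1 : ℝ) ≤ n := by exact_mod_cast hn0
    exact ⟨fun i => hge i, fun i => (hle i).trans hn1⟩
  · intro i
    obtain ⟨f, hf⟩ := hexp i
    have hc := map_ctr_lt hn f hf
    obtain ⟨y, hy⟩ : ∃ y : E4, ∀ x, ⟪x, y⟫_ℝ = f x := by
      refine ⟨(InnerProductSpace.toDual ℝ E4).symm f, fun x => ?_⟩
      rw [real_inner_comm, InnerProductSpace.toDual_symm_apply]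
    have hD : 0 < f (v i) - f (ctr v) := by linarith
    have hval : ∀ j, ⟪v j - ctr v, (f (v i) - f (ctr v))⁻¹ • y⟫_ℝ =
        (f (v j) - f (ctr v)) / (f (v i) - f (ctr v)) := by
      intro j
      rw [inner_smul_right, hy, map_sub, inv_mul_eq_div]
    refine ⟨(f (v i) - f (ctr v))⁻¹ • y, ?_, ?_⟩
    · intro j
      show ⟪v j - ctr v, (f (v i) - f (ctr v))⁻¹ • y⟫_ℝ ≤ 1
      rw [hval, div_le_one hD]
      by_cases h : j = i
      · rw [h]
      · have := hf j h
        linarith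
    · intro j
      show ⟪v j - ctr v, (f (v i) - f (ctr v))⁻¹ • y⟫_ℝ = 1 ↔ j = i
      rw [hval, div_eq_one_iff_eq hD.ne']
      constructor
      · intro h
        by_contra hne
        have := hf j hne
        linarith
      · rintro rfl
        rfl

theorem affineIndependent_of_li {p : Fin 3 → E4} (h : LinearIndependent ℝ p) :
    AffineIndependent ℝ p := by
  rw [affineIndependent_def]
  intro s w hw hs
  rw [Finset.weightedVSub_eq_linear_combination s hw] at hs
  exact linearIndependent_iff'.1 h s w hs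

/-- A 2-face which is a triangle. -/
theorem triangle {u : Fin n → E4} {b : Fin n → ℝ} {i j : Fin n} {p : Fin 3 → E4}
    (hli : LinearIndependent ℝ p) (hp : ∀ m, p m ∈ Facet u b i ∩ Facet u b j)
    (hsub : ∀ x ∈ Facet u b i ∩ Facet u b j, ∃ c : Fin 3 → ℝ, (∀ m, 0 ≤ c m) ∧ ∑ m, c m = 1 ∧
      x = ∑ m, c m • p m) :
    Module.finrank ℝ (vectorSpan ℝ (Facet u b i ∩ Facet u b j)) = 2 ∧
      (Set.extremePoints ℝ (Facet u b i ∩ Facet u b j)).ncard ≤ 3 := by
  have hconv : Convex ℝ (Facet u b i ∩ Facet u b j) := by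
    intro x hx y hy α β hα hβ hαβ
    have key : ∀ k : Fin n, ⟪u k, α • x + β • y⟫_ℝ = α * ⟪u k, x⟫_ℝ + β * ⟪u k, y⟫_ℝ := by
      intro k
      rw [inner_add_right, inner_smul_right, inner_smul_right]
    have hP : α • x + β • y ∈ Poly u b := by
      intro k
      rw [key]
      have h1 := mul_le_mul_of_nonneg_left (hx.1.1 k) hα
      have h2 := mul_le_mul_of_nonneg_left (hy.1.1 k) hβ
      have h3 : α * b k + β * b k = b k := by rw [← add_mul, hαβ, one_mul]
      linarith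
    refine ⟨⟨hP, ?_⟩, hP, ?_⟩
    · rw [key, hx.1.2, hy.1.2, ← add_mul, hαβ, one_mul]
    · rw [key, hx.2.2, hy.2.2, ← add_mul, hαβ, one_mul]
  have heq : Facet u b i ∩ Facet u b j = convexHull ℝ (Set.range p) := by
    apply Set.Subset.antisymm
    · intro x hx
      obtain ⟨c, hc0, hc1, rfl⟩ := hsub x hx
      exact (convex_convexHull ℝ _).sum_mem (fun m _ => hc0 m) hc1
        (fun m _ => subset_convexHull ℝ _ ⟨m, rfl⟩)
    · apply convexHull_min _ hconv
      rintro _ ⟨m, rfl⟩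
      exact hp m
  refine ⟨?_, ?_⟩
  · rw [heq, ← direction_affineSpan, affineSpan_convexHull, direction_affineSpan]
    exact (affineIndependent_of_li hli).finrank_vectorSpan (by simp)
  · rw [heq]
    have h1 : (Set.extremePoints ℝ (convexHull ℝ (Set.range p))) ⊆ Set.range p :=
      extremePoints_convexHull_subset
    refine (Set.ncard_le_ncard h1 (Set.finite_range p)).trans ?_
    have h2 := Set.ncard_image_le (f := p) (s := Set.univ) Set.finite_univ
    rw [Set.image_univ, Set.ncard_univ, Nat.card_eq_fintype_card, Fintype.card_fin] at h2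
    exact h2

end TCC
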