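import Pool.Agent.TCC.Prim
import Pool.Agent.TPH.St9

/-!
# Three classes of facets with collinear apexes: vertices of a 2-face and rays
-/

set_option autoImplicit false

namespace TCC

open TPH TPH.Tr

variable {V : Finset (E × ℝ)} {ι : Type*} {G : Finset ι} {w : ι → E} {s : ι → ℝ}

/-- The condition vector of the point `z` of the third layer. -/
def cv (lx ly lz : ℝ) (x y z : E × ℝ) : E := lx • x.1 + ly • y.1 + lz • z.1

theorem ip_cv {lx ly lz : ℝ} {x y z : E × ℝ} (h2 : lx * x.2 + ly * y.2 + lz * z.2 = 0) (u : E)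
    (σ : ℝ) : ip (cv lx ly lz x y z) u = lx * val u σ x + ly * val u σ y + lz * val u σ z := by
  rw [cv, ip_add_left, ip_add_left, ip_smul_left, ip_smul_left, ip_smul_left, val, val, val]
  linear_combination (-σ) * h2

/-- The setting of a pair of layers. -/
structure Pair (V : Finset (E × ℝ)) (tx ty tz kx ky lx ly lz : ℝ) (x y : E × ℝ)
    (T : Finset E) : Prop where
  ne : tx ≠ ty
  kx0 : 0 < kx
  ky0 : 0 < ky
  lz0 : lz < 0
  l1 : lx + ly + lz = 0
  l2 : lx * tx + ly * ty + lz * tz = 0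
  hx : x ∈ lay V tx
  hy : y ∈ lay V ty
  lay3 : ∀ v ∈ V, v.2 = tx ∨ v.2 = ty ∨ v.2 = tz
  sub : ∀ z ∈ lay V tz, cv lx ly lz x y z ∈ T
  sup : ∀ t ∈ T, ∃ z ∈ lay V tz, t = cv lx ly lz x y z

section

variable {tx ty tz kx ky lx ly lz : ℝ} {x y : E × ℝ} {T : Finset E}

theorem Pair.ip_eq (h : Pair V tx ty tz kx ky lx ly lz x y T) {z : E × ℝ} (hz : z ∈ lay V tz)
    (u : E) (σ : ℝ) : ip (cv lx ly lz x y z) u =
      lx * val u σ x + ly * val u σ y + lz * val u σ z := by
  apply ip_cv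
  rw [(mem_lay.1 h.hx).2, (mem_lay.1 h.hy).2, (mem_lay.1 hz).2]
  exact h.l2

/-- Same with the same value `q` at `x` and `y`. -/
theorem Pair.ip_eq' (h : Pair V tx ty tz kx ky lx ly lz x y T) {z : E × ℝ} (hz : z ∈ lay V tz)
    {u : E} {σ q : ℝ} (hxq : val u σ x = q) (hyq : val u σ y = q) :
    ip (cv lx ly lz x y z) u = -lz * (q - val u σ z) := by
  rw [h.ip_eq hz u σ, hxq, hyq]
  have := h.l1
  linear_combination q * this

theorem fg_of_mem (D : PD V G w s) (h : Pair V tx ty tz kx ky lx ly lz x y T) {g : ι}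
    (hg : g ∈ G) (hxg : val (w g) (s g) x = 1) (hyg : val (w g) (s g) y = 1) :
    FG (img V tx kx) (img V ty ky) T (kx • x.1) (ky • y.1) (w g) := by
  have hnn := D.nn g hg
  have hx := mem_lay.1 h.hx
  have hy := mem_lay.1 h.hy
  have zx : (zer V tx (w g) (s g) 1).Nonempty := ⟨x, mem_zer.2 ⟨hx.1, hx.2, hxg⟩⟩
  have zy : (zer V ty (w g) (s g) 1).Nonempty := ⟨y, mem_zer.2 ⟨hy.1, hy.2, hyg⟩⟩
  have hxM : kx • x.1 ∈ Mx (img V tx kx) (w g) := (mem_Mx_img h.kx0 hnn zx h.hx).2 hxg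
  have hyM : ky • y.1 ∈ Mx (img V ty ky) (w g) := (mem_Mx_img h.ky0 hnn zy h.hy).2 hyg
  refine ⟨?_, hxM, hyM, ?_, ?_⟩
  · intro h0
    rw [h0, val, ip_zero_right, zero_add, hx.2] at hxg
    rw [h0, val, ip_zero_right, zero_add, hy.2] at hyg
    have hs : s g ≠ 0 := by
      rintro hs
      rw [hs, zero_mul] at hxg
      exact zero_ne_one hxg
    exact h.ne (mul_left_cancel₀ hs (hxg.trans hyg.symm))
  · intro t ht
    obtain ⟨z, hz, rfl⟩ := h.sup t ht
    rw [h.ip_eq' hz hxg hyg]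
    have h1 := hnn z (mem_lay.1 hz).1
    have h2 := h.lz0
    exact mul_nonneg (by linarith) (by linarith)
  · intro v hv1 hv2 hv3
    -- solve for the height coefficient
    have hne : ty - tx ≠ 0 := sub_ne_zero.2 h.ne.symm
    obtain ⟨s', hs'⟩ : ∃ s' : ℝ, s' = (ip x.1 v - ip y.1 v) / (ty - tx) := ⟨_, rfl⟩
    obtain ⟨q', hq'⟩ : ∃ q' : ℝ, q' = ip x.1 v + s' * tx := ⟨_, rfl⟩
    have hs1 : s' * (ty - tx) = ip x.1 v - ip y.1 v := by rw [hs', div_mul_cancel₀ _ hne]
    have hqx : val v s' x = q' := by rw [val, hx.2, hq']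
    have hqy : val v s' y = q' := by rw [val, hy.2, hq']; linarith
    have hz : ∀ z ∈ V, val (w g) (s g) z = 1 → val v s' z = q' := by
      intro z hz hz0
      rcases h.lay3 z hz with h1 | h1 | h1
      · have hzM : kx • z.1 ∈ Mx (img V tx kx) (w g) :=
          (mem_Mx_img h.kx0 hnn zx (mem_lay.2 ⟨hz, h1⟩)).2 hz0
        have e := hv1 _ hzM _ hxM
        rw [ip_smul_left, ip_smul_left] at e
        have e' := mul_left_cancel₀ h.kx0.ne' e
        rw [val, h1, e', hq']
      · have hzM : ky • z.1 ∈ Mx (img V ty ky) (w g) :=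
          (mem_Mx_img h.ky0 hnn zy (mem_lay.2 ⟨hz, h1⟩)).2 hz0
        have e := hv2 _ hzM _ hyM
        rw [ip_smul_left, ip_smul_left] at e
        have e' := mul_left_cancel₀ h.ky0.ne' e
        rw [val, h1, e', ← hqy, val, hy.2]
      · have hzl : z ∈ lay V tz := mem_lay.2 ⟨hz, h1⟩
        have e1 := h.ip_eq' hzl hxg hyg
        rw [hz0, sub_self, mul_zero] at e1
        have e2 := hv3 _ (h.sub z hzl) e1
        rw [h.ip_eq' hzl hqx hqy] at e2
        rcases mul_eq_zero.1 e2 with h3 | h3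
        · have := h.lz0
          linarith
        · linarith
    exact ⟨q', (D.span g hg v s' q' hz).1⟩

theorem mem_of_fg (D : PD V G w s) (h : Pair V tx ty tz kx ky lx ly lz x y T) {u : E}
    (hF : FG (img V tx kx) (img V ty ky) T (kx • x.1) (ky • y.1) u) :
    ∃ g ∈ G, (val (w g) (s g) x = 1 ∧ val (w g) (s g) y = 1) ∧ ∃ κ : ℝ, 0 < κ ∧ u = κ • w g := by
  have hx := mem_lay.1 h.hx
  have hy := mem_lay.1 h.hy
  have hne : ty - tx ≠ 0 := sub_ne_zero.2 h.ne.symm
  obtain ⟨σ, hσ⟩ : ∃ σ : ℝ, σ = (ip x.1 u - ip y.1 u) / (ty - tx) := ⟨_, rfl⟩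
  obtain ⟨q, hq⟩ : ∃ q : ℝ, q = ip x.1 u + σ * tx := ⟨_, rfl⟩
  have hs1 : σ * (ty - tx) = ip x.1 u - ip y.1 u := by rw [hσ, div_mul_cancel₀ _ hne]
  have hqx : val u σ x = q := by rw [val, hx.2, hq]
  have hqy : val u σ y = q := by rw [val, hy.2, hq]; linarith
  -- all values are at most q
  have hle : ∀ v ∈ V, val u σ v ≤ q := by
    intro v hv
    rcases h.lay3 v hv with h1 | h1 | h1
    · have e := Mx_le hF.xw (mem_img.2 ⟨v, mem_lay.2 ⟨hv, h1⟩, rfl⟩)
      rw [ip_smul_left, ip_smul_left] at e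
      have e' := le_of_mul_le_mul_left e h.kx0
      rw [← hqx, val, val, h1, hx.2]
      linarith
    · have e := Mx_le hF.yw (mem_img.2 ⟨v, mem_lay.2 ⟨hv, h1⟩, rfl⟩)
      rw [ip_smul_left, ip_smul_left] at e
      have e' := le_of_mul_le_mul_left e h.ky0
      rw [← hqy, val, val, h1, hy.2]
      linarith
    · have hzl : v ∈ lay V tz := mem_lay.2 ⟨hv, h1⟩
      have e := hF.dom _ (h.sub v hzl)
      rw [h.ip_eq' hzl hqx hqy] at e
      have := h.lz0
      by_contra hcon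
      push Not at hcon
      have := mul_neg_of_pos_of_neg (show 0 < -lz by linarith) (show q - val u σ v < 0 by linarith)
      linarith
  have hq0 : 0 < q := by
    obtain ⟨v, hv, hv0⟩ := D.pos u σ (Or.inl hF.nz)
    exact hv0.trans_le (hle v hv)
  have hval : ∀ v : E × ℝ, val (q⁻¹ • u) (q⁻¹ * σ) v = q⁻¹ * val u σ v := by
    intro v
    rw [val, val, ip_smul_right]
    ring
  have hone : ∀ v : E × ℝ, val (q⁻¹ • u) (q⁻¹ * σ) v = 1 ↔ val u σ v = q := by
    intro v
    rw [hval, inv_mul_eq_div, div_eq_one_iff_eq hq0.ne']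
  have zx : (zer V tx u σ q).Nonempty := ⟨x, mem_zer.2 ⟨hx.1, hx.2, hqx⟩⟩
  have zy : (zer V ty u σ q).Nonempty := ⟨y, mem_zer.2 ⟨hy.1, hy.2, hqy⟩⟩
  obtain ⟨g, hg, hgw, hgs⟩ := D.all (q⁻¹ • u) (q⁻¹ * σ) (by
    intro v hv
    rw [hval, inv_mul_eq_div, div_le_one hq0]
    exact hle v hv) (by
    intro w'' s'' h0
    have h0' : ∀ v ∈ V, val u σ v = q → val w'' s'' v = 0 := fun v hv hvq =>
      h0 v hv ((hone v).2 hvq)
    have p1 : Perp (Mx (img V tx kx) u) w'' := by
      have key : ∀ a ∈ Mx (img V tx kx) u, ip a w'' = kx * (-(s'' * tx)) := by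
        intro a ha
        rw [Mx_img h.kx0 hle zx, Finset.mem_image] at ha
        obtain ⟨v, hv, rfl⟩ := ha
        rw [mem_zer] at hv
        have e := h0' v hv.1 hv.2.2
        rw [val, hv.2.1] at e
        rw [ip_smul_left]
        have : ip v.1 w'' = -(s'' * tx) := by linarith
        rw [this]
      intro a ha a' ha'
      rw [key a ha, key a' ha']
    have p2 : Perp (Mx (img V ty ky) u) w'' := by
      have key : ∀ a ∈ Mx (img V ty ky) u, ip a w'' = ky * (-(s'' * ty)) := by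
        intro a ha
        rw [Mx_img h.ky0 hle zy, Finset.mem_image] at ha
        obtain ⟨v, hv, rfl⟩ := ha
        rw [mem_zer] at hv
        have e := h0' v hv.1 hv.2.2
        rw [val, hv.2.1] at e
        rw [ip_smul_left]
        have : ip v.1 w'' = -(s'' * ty) := by linarith
        rw [this]
      intro a ha a' ha'
      rw [key a ha, key a' ha']
    have ex := h0' x hx.1 hqx
    have ey := h0' y hy.1 hqy
    obtain ⟨κ, hκ⟩ := hF.span w'' p1 p2 (by
      intro t ht ht0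
      obtain ⟨z, hz, rfl⟩ := h.sup t ht
      rw [h.ip_eq' hz hqx hqy] at ht0
      have hzq : val u σ z = q := by
        rcases mul_eq_zero.1 ht0 with h3 | h3
        · have := h.lz0
          linarith
        · linarith
      rw [h.ip_eq hz w'' s'', ex, ey, h0' z (mem_lay.1 hz).1 hzq]
      ring)
    rw [hκ, val, ip_smul_right, hx.2] at ex
    rw [hκ, val, ip_smul_right, hy.2] at ey
    rw [val, hx.2] at hqx
    rw [val, hy.2] at hqy
    have e1 : (s'' - κ * σ) * (ty - tx) = 0 := by linear_combination ey - ex - κ * hqy + κ * hqx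
    have e2 : s'' = κ * σ := by
      rcases mul_eq_zero.1 e1 with h3 | h3
      · linarith
      · exact absurd h3 hne
    have e3 : κ * q = 0 := by
      rw [e2] at ex
      linear_combination ex - κ * hqx
    have e4 : κ = 0 := by
      rcases mul_eq_zero.1 e3 with h3 | h3
      · exact h3
      · exact absurd h3 hq0.ne'
    rw [hκ, e2, e4]
    simp)
  refine ⟨g, hg, ⟨?_, ?_⟩, q, hq0, ?_⟩
  · rw [hgw, hgs]
    exact (hone x).2 hqx
  · rw [hgw, hgs]
    exact (hone y).2 hqy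
  · rw [hgw, smul_smul, mul_inv_cancel₀ hq0.ne', one_smul]

theorem eq_of_smul (D : PD V G w s) (h : Pair V tx ty tz kx ky lx ly lz x y T) {g g' : ι}
    (hg : g ∈ G) (hg' : g' ∈ G) (hxg : val (w g) (s g) x = 1) (hyg : val (w g) (s g) y = 1)
    (hxg' : val (w g') (s g') x = 1) (hyg' : val (w g') (s g') y = 1) {κ : ℝ}
    (hκ : w g' = κ • w g) : g = g' := by
  have hx := mem_lay.1 h.hx
  have hy := mem_lay.1 h.hy
  have hne : ty - tx ≠ 0 := sub_ne_zero.2 h.ne.symm
  rw [val, hx.2] at hxg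
  rw [val, hy.2] at hyg
  rw [hκ, val, ip_smul_right, hx.2] at hxg'
  rw [hκ, val, ip_smul_right, hy.2] at hyg'
  have e1 : (s g' - κ * s g) * (ty - tx) = 0 := by
    linear_combination hyg' - hxg' - κ * hyg + κ * hxg
  have e2 : s g' = κ * s g := by
    rcases mul_eq_zero.1 e1 with h3 | h3
    · linarith
    · exact absurd h3 hne
  have e3 : κ = 1 := by
    rw [e2] at hxg'
    linear_combination hxg' - κ * hxg
  apply D.inj g hg g' hg'
  · rw [hκ, e3, one_smul]
  · rw [e2, e3, one_mul]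

open Classical in
/-- **Four rays are four vertices.** -/
theorem card_four (D : PD V G w s) (h : Pair V tx ty tz kx ky lx ly lz x y T)
    (h4 : Rays4 (FG (img V tx kx) (img V ty ky) T (kx • x.1) (ky • y.1))) :
    (G.filter (fun g => val (w g) (s g) x = 1 ∧ val (w g) (s g) y = 1)).card = 4 := by
  obtain ⟨r, hr, hinj, hall⟩ := h4
  choose γ hγ hγ1 κ hκ hκ1 using fun i => mem_of_fg D h (hr i)
  have himg : G.filter (fun g => val (w g) (s g) x = 1 ∧ val (w g) (s g) y = 1) =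
      Finset.univ.image γ := by
    ext g
    rw [Finset.mem_filter, Finset.mem_image]
    constructor
    · rintro ⟨hg, h1, h2⟩
      obtain ⟨i, k, hk, he⟩ := hall _ (fg_of_mem D h hg h1 h2)
      refine ⟨i, Finset.mem_univ i, ?_⟩
      refine eq_of_smul D h (hγ i) hg (hγ1 i).1 (hγ1 i).2 h1 h2 (κ := k * κ i) ?_
      rw [he, hκ1 i, smul_smul]
    · rintro ⟨i, -, rfl⟩
      exact ⟨hγ i, hγ1 i⟩
  have hγinj : Function.Injective γ := by
    intro i j hij
    have h1 := hκ1 i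
    have h2 := hκ1 j
    rw [← hij] at h2
    apply hinj i j (κ j * (κ i)⁻¹) (mul_pos (hκ j) (inv_pos.2 (hκ i)))
    have hi0 := (hκ i).ne'
    calc r j = κ j • w (γ i) := h2
      _ = (κ j * (κ i)⁻¹) • (κ i • w (γ i)) := by
        rw [smul_smul, mul_assoc, inv_mul_cancel₀ hi0, mul_one]
      _ = (κ j * (κ i)⁻¹) • r i := by rw [← h1]
  rw [himg, Finset.card_image_of_injective _ hγinj]
  simp

end

end TCC
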